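import Pool.Agent.H986.MT.Disc

/-!
Self-avoiding walks have a good scale, and two of them with close starting points: one of eight
symmetric pairs intersects.
-/

set_option autoImplicit false

namespace Pool.Agent.H986.MT

open Complex

theorem pt_inj {p q : ℤ × ℤ} (h : pt p = pt q) : p = q := by
  have h1 := congrArg Complex.re h
  have h2 := congrArg Complex.im h
  rw [pt_re, pt_re] at h1
  rw [pt_im, pt_im] at h2
  exact Prod.ext (by exact_mod_cast h1) (by exact_mod_cast h2)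

theorem norm_pt (p : ℤ × ℤ) : ‖pt p‖ ≤ ((|p.1| + |p.2| : ℤ) : ℝ) := by
  have := Complex.norm_le_abs_re_add_abs_im (pt p)
  rw [pt_re, pt_im] at this
  push_cast
  exact this

theorem near_norm {p q : ℤ × ℤ} (h : Near p q) : ‖pt q‖ ≤ ‖pt p‖ + 1 := by
  have h1 : ‖pt q - pt p‖ ≤ 1 := by
    rw [← pt_sub]
    refine (norm_pt _).trans ?_
    have : |(q - p).1| + |(q - p).2| ≤ 1 := h
    exact_mod_cast this
  have h2 := norm_add_le (pt q - pt p) (pt p)
  rw [sub_add_cancel] at h2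
  linarith

/-- common vertices of interpolated paths, all times -/
theorem meet0 {n m : ℕ} {v w : ℕ → ℤ × ℤ} (hv : ∀ k < n, Near (v k) (v (k + 1)))
    (hw : ∀ k < m, Near (w k) (w (k + 1))) {t u : ℝ} (h0 : 0 ≤ t) (h1 : t ≤ n)
    (h2 : 0 ≤ u) (h3 : u ≤ m) (h : lin n (fun k => pt (v k)) t = lin m (fun k => pt (w k)) u) :
    ∃ i ≤ n, ∃ j ≤ m, (i : ℝ) < t + 1 ∧ (j : ℝ) < u + 1 ∧ v i = w j := by
  rcases eq_or_lt_of_le h0 with h4 | h4
  · rcases eq_or_lt_of_le h2 with h5 | h5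
    · rw [← h4, ← h5, lin_zero, lin_zero] at h
      exact ⟨0, Nat.zero_le _, 0, Nat.zero_le _, by push_cast; linarith, by push_cast; linarith,
        pt_inj h⟩
    · obtain ⟨i, _, hi, hi', j, hj, hj', e⟩ := meet hw hv (i₀ := 0) (by simpa using h5) h3 h0 h1
        h.symm
      exact ⟨j, hj, i, hi, hj', hi', e.symm⟩
  · obtain ⟨i, _, hi, hi', j, hj, hj', e⟩ := meet hv hw (i₀ := 0) (by simpa using h4) h1 h2 h3 h
    exact ⟨i, hi, j, hj, hi', hj', e⟩

theorem lin_rot (n : ℕ) (v : ℕ → ℤ × ℤ) (k : ℕ) (t : ℝ) :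
    lin n (fun j => pt (rt^[k] (v j))) t = I ^ k * lin n (fun j => pt (v j)) t := by
  have h := lin_map n (fun j => pt (v j)) (I ^ k) 0 t
  rw [add_zero] at h
  rw [← h]
  congr 1
  funext j
  rw [pt_rt_iter, add_zero]

theorem lin_shift (n : ℕ) (v : ℕ → ℤ × ℤ) (x : ℤ × ℤ) (t : ℝ) :
    lin n (fun j => pt (v j + x)) t = lin n (fun j => pt (v j)) t + pt x := by
  have h := lin_map n (fun j => pt (v j)) 1 (pt x) t
  rw [one_mul] at h
  rw [← h]
  congr 1
  funext j
  rw [pt_add, one_mul]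

/-- from the curves to the walks -/
theorem to_lattice {n m : ℕ} {v w : ℕ → ℤ × ℤ} (hv : ∀ k < n, Near (v k) (v (k + 1)))
    (hw : ∀ k < m, Near (w k) (w (k + 1))) {t u : ℝ} (h0 : 0 ≤ t) (h1 : t ≤ n)
    (h2 : 0 ≤ u) (h3 : u ≤ m) {k : ℕ} {x : ℤ × ℤ}
    (h : I ^ k * lin n (fun k => pt (v k)) t = lin m (fun k => pt (w k)) u + pt x ∨
      I ^ k * lin n (fun k => pt (v k)) t = lin m (fun k => pt (w k)) u - pt x) :
    ∃ i ≤ n, ∃ j ≤ m, (i : ℝ) < t + 1 ∧ (j : ℝ) < u + 1 ∧
      (rt^[k] (v i) = w j + x ∨ rt^[k] (v i) = w j + -x) := by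
  have hv' : ∀ j < n, Near (rt^[k] (v j)) (rt^[k] (v (j + 1))) := fun j hj =>
    near_rt_iter k (hv j hj)
  rw [← lin_rot] at h
  rcases h with h | h
  · rw [← lin_shift] at h
    obtain ⟨i, hi, j, hj, hi', hj', e⟩ := meet0 hv' (w := fun j => w j + x)
      (fun j hj => near_add (hw j hj) x) h0 h1 h2 h3 h
    exact ⟨i, hi, j, hj, hi', hj', Or.inl e⟩
  · have e1 : lin m (fun k => pt (w k)) u - pt x = lin m (fun k => pt (w k + -x)) u := by
      rw [lin_shift]
      have : pt (-x) = -pt x := by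
        unfold pt
        simp
        ring
      rw [this, sub_eq_add_neg]
    rw [e1] at h
    obtain ⟨i, hi, j, hj, hi', hj', e⟩ := meet0 hv' (w := fun j => w j + -x)
      (fun j hj => near_add (hw j hj) (-x)) h0 h1 h2 h3 h
    exact ⟨i, hi, j, hj, hi', hj', Or.inr e⟩

theorem reach {n B : ℕ} {v : ℕ → ℤ × ℤ} (inj : ∀ i ≤ n, ∀ j ≤ n, v i = v j → i = j)
    (hn : (2 * B + 1) ^ 2 ≤ n) : ∃ k ≤ n, (B : ℝ) < ‖pt (v k)‖ := by
  by_contra hc
  push Not at hc
  have hb : ∀ k ≤ n, |(v k).1| ≤ B ∧ |(v k).2| ≤ B := by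
    intro k hk
    have h1 := Complex.abs_re_le_norm (pt (v k))
    have h2 := Complex.abs_im_le_norm (pt (v k))
    rw [pt_re] at h1
    rw [pt_im] at h2
    have h3 := hc k hk
    constructor
    · have : ((|(v k).1| : ℤ) : ℝ) ≤ ((B : ℤ) : ℝ) := by
        push_cast
        linarith
      exact_mod_cast this
    · have : ((|(v k).2| : ℤ) : ℝ) ≤ ((B : ℤ) : ℝ) := by
        push_cast
        linarith
      exact_mod_cast this
  have hcard : (Finset.range (n + 1)).card ≤
      (Finset.Icc (-(B : ℤ)) B ×ˢ Finset.Icc (-(B : ℤ)) B).card := by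
    refine Finset.card_le_card_of_injOn v ?_ ?_
    · intro k hk
      have hk' : k ≤ n := by
        have := Finset.mem_range.1 (Finset.mem_coe.1 hk)
        omega
      have h1 := hb k hk'
      rw [abs_le, abs_le] at h1
      simp only [Finset.coe_product, Set.mem_prod, Finset.coe_Icc, Set.mem_Icc]
      exact ⟨h1.1, h1.2⟩
    · intro i hi j hj e
      have hi' := Finset.mem_range.1 (Finset.mem_coe.1 hi)
      have hj' := Finset.mem_range.1 (Finset.mem_coe.1 hj)
      exact inj i (by omega) j (by omega) e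
  rw [Finset.card_range, Finset.card_product, Int.card_Icc] at hcard
  have e : ((B : ℤ) + 1 - -(B : ℤ)).toNat = 2 * B + 1 := by omega
  rw [e] at hcard
  nlinarith

theorem lin_bound {n N : ℕ} (hN : N ≤ n) {v : ℕ → ℤ × ℤ} {r : ℝ}
    (h : ∀ k ≤ N, ‖pt (v k)‖ ≤ r) : ∀ t ∈ Set.Icc (0 : ℝ) N, ‖lin n (fun k => pt (v k)) t‖ ≤ r := by
  intro t ht
  rcases eq_or_lt_of_le ht.1 with h1 | h1
  · rw [← h1, lin_zero]
    exact h 0 (Nat.zero_le _)
  · obtain ⟨j, _, h2, h3, h4⟩ := block (i₀ := 0) (by simpa using h1) ht.2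
    rw [lin_eq (lt_of_lt_of_le h2 hN) _ h3.le h4]
    have e : pt (v j) + ((t - j : ℝ) : ℂ) * (pt (v (j + 1)) - pt (v j)) =
        ((1 - (t - j) : ℝ) : ℂ) * pt (v j) + ((t - j : ℝ) : ℂ) * pt (v (j + 1)) := by
      push_cast
      ring
    rw [e]
    refine (norm_add_le _ _).trans ?_
    rw [norm_mul, norm_mul, Complex.norm_real, Complex.norm_real,
      Real.norm_of_nonneg (by linarith), Real.norm_of_nonneg (by linarith)]
    have h5 := h j h2.le
    have h6 := h (j + 1) h2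
    nlinarith

theorem exists_path (L : ℕ) : ∀ y : ℤ × ℤ, |y.1| + |y.2| ≤ L →
    ∃ w : ℕ → ℤ × ℤ, w 0 = 0 ∧ (∀ k, Near (w k) (w (k + 1))) ∧ ∀ k, L ≤ k → w k = y := by
  induction L with
  | zero =>
    intro y hy
    have h1 : |y.1| = 0 := by
      have := abs_nonneg y.1
      have := abs_nonneg y.2
      push_cast at hy
      omega
    have h2 : |y.2| = 0 := by
      have := abs_nonneg y.1
      have := abs_nonneg y.2
      push_cast at hy
      omega
    have e : y = 0 := Prod.ext (abs_eq_zero.1 h1) (abs_eq_zero.1 h2)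
    exact ⟨fun _ => 0, rfl, fun _ => by simp [Near], fun _ _ => e.symm⟩
  | succ L ih =>
    intro y hy
    push_cast at hy
    obtain ⟨y', hy', hyy⟩ : ∃ y' : ℤ × ℤ, |y'.1| + |y'.2| ≤ L ∧ Near y' y := by
      unfold Near
      rcases lt_trichotomy y.1 0 with h | h | h
      · refine ⟨(y.1 + 1, y.2), ?_, ?_⟩
        · simp only
          rw [abs_of_nonpos (by omega : y.1 + 1 ≤ 0)]
          rw [abs_of_neg h] at hy
          omega
        · simp
      · rcases lt_trichotomy y.2 0 with h' | h' | h'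
        · refine ⟨(y.1, y.2 + 1), ?_, ?_⟩
          · simp only
            rw [abs_of_nonpos (by omega : y.2 + 1 ≤ 0)]
            rw [abs_of_neg h'] at hy
            omega
          · simp
        · refine ⟨y, ?_, by simp⟩
          rw [h, h']
          simp
        · refine ⟨(y.1, y.2 - 1), ?_, ?_⟩
          · simp only
            rw [abs_of_nonneg (by omega : 0 ≤ y.2 - 1)]
            rw [abs_of_pos h'] at hy
            omega
          · simp
      · refine ⟨(y.1 - 1, y.2), ?_, ?_⟩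
        · simp only
          rw [abs_of_nonneg (by omega : 0 ≤ y.1 - 1)]
          rw [abs_of_pos h] at hy
          omega
        · simp
    obtain ⟨w, w0, w1, w2⟩ := ih y' hy'
    refine ⟨fun k => if k ≤ L then w k else y, by simp [w0], ?_, ?_⟩
    · intro k
      simp only
      rcases lt_trichotomy k L with h | h | h
      · rw [if_pos (by omega), if_pos (by omega)]
        exact w1 k
      · rw [if_pos (by omega), if_neg (by omega), w2 k (by omega)]
        exact hyy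
      · rw [if_neg (by omega), if_neg (by omega)]
        simp [Near]
    · intro k hk
      simp only
      rw [if_neg (by omega)]

theorem walk_norm {w : ℕ → ℤ × ℤ} (w0 : w 0 = 0) (w1 : ∀ k, Near (w k) (w (k + 1))) (k : ℕ) :
    ‖pt (w k)‖ ≤ k := by
  induction k with
  | zero => simp [w0, pt]
  | succ k ih =>
    have := near_norm (w1 k)
    push_cast
    linarith

theorem rt_four (k : ℕ) (z : ℤ × ℤ) : rt^[4 * k] z = z := by
  have h : rt^[4] = id := by
    funext z
    simp [rt]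
  rw [Function.iterate_mul, h, Function.iterate_id]
  rfl

theorem rt_mod (k : ℕ) (z : ℤ × ℤ) : rt^[k] z = rt^[k % 4] z := by
  conv_lhs => rw [← Nat.div_add_mod k 4, Function.iterate_add_apply, rt_four]

/-- **The deterministic theorem for self-avoiding walks.** -/
theorem det {n m : ℕ} {v v' : ℕ → ℤ × ℤ} (v0 : v 0 = 0) (v0' : v' 0 = 0)
    (hv : ∀ k < n, Near (v k) (v (k + 1))) (hv' : ∀ k < m, Near (v' k) (v' (k + 1)))
    (inj : ∀ i ≤ n, ∀ j ≤ n, v i = v j → i = j)
    (x : ℤ × ℤ) {D : ℕ} (hD1 : 1 ≤ D) (hD : |x.1| + |x.2| ≤ D) (hn : 10 ^ 6 * D ^ 4 ≤ n)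
    (hfar : ∃ k ≤ m, ((492 * D ^ 2 : ℕ) : ℝ) < ‖pt (v' k)‖) :
    ∃ k, ∃ i ≤ n, ∃ j ≤ m, rt^[k] (v i) = v' j + x ∨ rt^[k] (v i) = v' j + -x := by
  classical
  have hD1' : (1 : ℝ) ≤ D := by exact_mod_cast hD1
  -- the radii
  set h : ℝ := 4 * D + 1 with hh
  have hh0 : 0 < h := by positivity
  have hD2 : D ^ 2 ≤ D ^ 4 := Nat.pow_le_pow_right hD1 (by norm_num)
  have hD4 : 1 ≤ D ^ 4 := Nat.one_le_pow _ _ hD1
  obtain ⟨kM, hkM, hkM'⟩ := reach (B := 490 * D ^ 2) inj (by
    have e : (2 * (490 * D ^ 2) + 1) ^ 2 = 960400 * D ^ 4 + 1960 * D ^ 2 + 1 := by ring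
    rw [e]
    omega)
  obtain ⟨kM2, hkM2, hkM2'⟩ := hfar
  have hJh : ∀ j : ℕ, j ≤ 96 * D + 2 → (j : ℝ) * h ≤ ((490 * D ^ 2 : ℕ) : ℝ) := by
    intro j hj
    have hj' : (j : ℝ) ≤ 96 * D + 2 := by exact_mod_cast hj
    push_cast
    nlinarith
  have hex : ∀ j : ℕ, j ≤ 96 * D + 2 → ∃ k, k ≤ n ∧ (j : ℝ) * h < ‖pt (v k)‖ := fun j hj =>
    ⟨kM, hkM, lt_of_le_of_lt (hJh j hj) hkM'⟩
  let τ : ℕ → ℕ := fun j => if hj : j ≤ 96 * D + 2 then Nat.find (hex j hj) else 0
  have τ1 : ∀ j ≤ 96 * D + 2, τ j ≤ n ∧ (j : ℝ) * h < ‖pt (v (τ j))‖ := by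
    intro j hj
    simp only [τ, dif_pos hj]
    exact Nat.find_spec (hex j hj)
  have τ2 : ∀ j ≤ 96 * D + 2, ∀ k < τ j, ‖pt (v k)‖ ≤ j * h := by
    intro j hj k hk
    simp only [τ, dif_pos hj] at hk
    have h1 := Nat.find_min (hex j hj) hk
    have h2 := (τ1 j hj).1
    simp only [τ, dif_pos hj] at h2
    by_contra hc
    push Not at hc
    exact h1 ⟨by omega, hc⟩
  have τ3 : ∀ j ≤ 96 * D + 2, ∀ k ≤ τ j, ‖pt (v k)‖ ≤ j * h + 1 := by
    intro j hj k hk
    rcases eq_or_lt_of_le hk with h1 | h1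
    · rcases Nat.eq_zero_or_pos (τ j) with h2 | h2
      · rw [h1, h2, v0]
        have : ‖pt (0 : ℤ × ℤ)‖ = 0 := by simp [pt]
        rw [this]
        positivity
      · have h3 := τ2 j hj (τ j - 1) (by omega)
        have h4 := near_norm (hv (τ j - 1) (by have := (τ1 j hj).1; omega))
        have h5 : τ j - 1 + 1 = τ j := by omega
        rw [h5] at h4
        rw [h1]
        linarith
    · have := τ2 j hj k h1
      linarith
  have τ4 : ∀ j, j + 1 ≤ 96 * D + 2 → τ j < τ (j + 1) := by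
    intro j hj
    by_contra hc
    push Not at hc
    have h1 := τ3 j (by omega) (τ (j + 1)) hc
    have h2 := (τ1 (j + 1) hj).2
    push_cast at h2
    nlinarith
  -- the lattice path from `0` to `2x`
  obtain ⟨w, w0, w1, w2⟩ := exists_path (2 * D) (x + x) (by
    have e1 : (x + x).1 = 2 * x.1 := by simp [two_mul]
    have e2 : (x + x).2 = 2 * x.2 := by simp [two_mul]
    rw [e1, e2, abs_mul, abs_mul]
    push_cast
    have : |(2 : ℤ)| = 2 := by norm_num
    rw [this]
    linarith)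
  set κ : ℝ → ℂ := fun u => lin (2 * D) (fun k => pt (w k)) (((2 * D : ℕ) : ℝ) * u) with hκ
  have κ0 : κ 0 = 0 := by
    simp only [hκ, mul_zero, lin_zero, w0]
    simp [pt]
  have κ1 : κ 1 = 2 * pt x := by
    simp only [hκ, mul_one]
    rw [lin_nat le_rfl, w2 _ le_rfl, pt_add, two_mul]
  have κc : Continuous κ := by
    simp only [hκ]
    fun_prop
  have κm : ∀ u ∈ Set.Icc (0 : ℝ) 1, ((2 * D : ℕ) : ℝ) * u ∈ Set.Icc (0 : ℝ) ((2 * D : ℕ) : ℝ) := by
    intro u hu
    exact ⟨mul_nonneg (Nat.cast_nonneg _) hu.1, mul_le_of_le_one_right (Nat.cast_nonneg _) hu.2⟩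
  have κn : ∀ u ∈ Set.Icc (0 : ℝ) 1, ‖κ u‖ ≤ 2 * D := by
    intro u hu
    have := lin_bound (le_refl (2 * D)) (v := w) (r := 2 * D) (by
      intro k hk
      refine (walk_norm w0 w1 k).trans ?_
      exact_mod_cast hk) _ (κm u hu)
    exact this
  have ns : ‖pt x‖ ≤ D := (norm_pt x).trans (by exact_mod_cast hD)
  have ns2 : ‖2 * pt x‖ ≤ 2 * D := by
    rw [norm_mul]
    simp only [Complex.norm_ofNat]
    linarith
  -- the sites of the squares
  let cc : ℕ → ℕ → ℤ × ℤ := fun c j =>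
    if c = 0 then w j else if c = 1 then rt (w j) else if c = 2 then w j + rt (x + x)
      else rt (w j) + (x + x)
  let S : Finset (ℤ × ℤ) := (Finset.range 4 ×ˢ (Finset.range 4 ×ˢ Finset.range (2 * D + 1))).image
    fun p => rt^[p.1] (cc p.2.1 p.2.2)
  have hS : S.card ≤ 16 * (2 * D + 1) := by
    refine Finset.card_image_le.trans ?_
    rw [Finset.card_product, Finset.card_product, Finset.card_range, Finset.card_range]
    omega
  have inS : ∀ (k c j : ℕ) (z : ℤ × ℤ), c < 4 → j ≤ 2 * D → rt^[k] z = cc c j → z ∈ S := by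
    intro k c j z hc hj e
    refine Finset.mem_image.2 ⟨((3 * k) % 4, (c, j)), ?_, ?_⟩
    · simp only [Finset.mem_product, Finset.mem_range]
      exact ⟨Nat.mod_lt _ (by norm_num), hc, by omega⟩
    · simp only
      rw [← rt_mod, ← e, ← Function.iterate_add_apply]
      have : 3 * k + k = 4 * k := by ring
      rw [this, rt_four]
  have ptr : I * (2 * pt x) = pt (rt (x + x)) := by
    rw [pt_rt, pt_add, two_mul]
  have ptd : 2 * pt x = pt (x + x) := by rw [pt_add, two_mul]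
  have linr : ∀ u, I * κ u = lin (2 * D) (fun j => pt (rt (w j))) (((2 * D : ℕ) : ℝ) * u) := by
    intro u
    have := lin_rot (2 * D) w 1 (((2 * D : ℕ) : ℝ) * u)
    simp only [Function.iterate_one, pow_one] at this
    rw [this]
  -- the good scale
  obtain ⟨j, hj, hlate⟩ : ∃ j, j + 1 ≤ 96 * D + 2 ∧ ∀ t ∈ Set.Ioc ((τ j : ℕ) : ℝ) (τ (j + 1) : ℕ),
      ∀ k : ℕ, ∀ u ∈ Set.Icc (0 : ℝ) 1,
      I ^ k * lin n (fun k => pt (v k)) t ≠ κ u ∧ I ^ k * lin n (fun k => pt (v k)) t ≠ I * κ u ∧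
        I ^ k * lin n (fun k => pt (v k)) t ≠ κ u + I * (2 * pt x) ∧
        I ^ k * lin n (fun k => pt (v k)) t ≠ I * κ u + 2 * pt x := by
    by_contra hbad
    have hvis : ∀ j, j + 1 ≤ 96 * D + 2 → ∃ i, τ j ≤ i ∧ i ≤ τ (j + 1) ∧ v i ∈ S := by
      intro j hj
      by_contra hno
      apply hbad
      refine ⟨j, hj, fun t ht k u hu => ?_⟩
      have htn : t ≤ (τ (j + 1) : ℕ) := ht.2
      have hτn := (τ1 (j + 1) hj).1
      have hvk : ∀ i < τ (j + 1), Near (rt^[k] (v i)) (rt^[k] (v (i + 1))) := fun i hi =>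
        near_rt_iter k (hv i (by omega))
      have elin : I ^ k * lin n (fun k => pt (v k)) t =
          lin (τ (j + 1)) (fun i => pt (rt^[k] (v i))) t := by
        rw [← lin_rot]
        obtain ⟨d, hd⟩ := Nat.exists_eq_add_of_le hτn
        conv_lhs => rw [hd]
        exact lin_stable _ _ _ htn
      rw [elin]
      have fin : ∀ (c : ℕ) (cv : ℕ → ℤ × ℤ), c < 4 → (∀ l, cv l = cc c l) →
          (∀ l, Near (cv l) (cv (l + 1))) →
          lin (τ (j + 1)) (fun i => pt (rt^[k] (v i))) t ≠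
            lin (2 * D) (fun l => pt (cv l)) (((2 * D : ℕ) : ℝ) * u) := by
        intro c cv hc hcv hcn e
        obtain ⟨i, h1, h2, _, l, hl, _, e'⟩ := meet hvk (fun l _ => hcn l) ht.1 htn (κm u hu).1
          (κm u hu).2 e
        apply hno
        refine ⟨i, h1, h2, inS k c l _ hc hl ?_⟩
        rw [e', hcv]
      refine ⟨?_, ?_, ?_, ?_⟩
      · exact fin 0 w (by norm_num) (fun l => by simp [cc]) w1
      · rw [linr]
        exact fin 1 (fun l => rt (w l)) (by norm_num) (fun l => by simp [cc]) fun l =>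
          near_rt (w1 l)
      · rw [ptr]
        simp only [hκ]
        rw [← lin_shift]
        exact fin 2 (fun l => w l + rt (x + x)) (by norm_num) (fun l => by simp [cc]) fun l =>
          near_add (w1 l) _
      · rw [linr, ptd, ← lin_shift (2 * D) (fun j => rt (w j))]
        exact fin 3 (fun l => rt (w l) + (x + x)) (by norm_num) (fun l => by simp [cc]) fun l =>
          near_add (near_rt (w1 l)) _
    choose! i i1 i2 i3 using hvis
    have hcard : (Finset.range (48 * D + 1)).card ≤ S.card := by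
      refine Finset.card_le_card_of_injOn (fun a => v (i (2 * a))) ?_ ?_
      · intro a ha
        have := Finset.mem_range.1 (Finset.mem_coe.1 ha)
        exact i3 (2 * a) (by omega)
      · have key : ∀ a b : ℕ, a < b → b < 48 * D + 1 → v (i (2 * a)) ≠ v (i (2 * b)) := by
          intro a b hab hb e
          have h1 := i2 (2 * a) (by omega)
          have h2 := i1 (2 * b) (by omega)
          have h3 : ∀ d, 2 * a + 1 + (d + 1) ≤ 96 * D + 2 → τ (2 * a + 1) < τ (2 * a + 1 + (d + 1)) := by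
            intro d
            induction d with
            | zero =>
              intro hd
              exact τ4 _ hd
            | succ d ih =>
              intro hd
              exact (ih (by omega)).trans (τ4 _ hd)
          obtain ⟨d, hd⟩ : ∃ d, 2 * b = 2 * a + 1 + (d + 1) := ⟨2 * b - 2 * a - 2, by omega⟩
          have h4 := h3 d (by omega)
          rw [← hd] at h4
          have h5 : i (2 * a) < i (2 * b) := by omega
          have h6 := (τ1 (2 * b + 1) (by omega)).1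
          have h7 := i2 (2 * b) (by omega)
          have := inj _ (by omega) _ (by omega) e
          omega
        intro a ha b hb e
        have ha' := Finset.mem_range.1 (Finset.mem_coe.1 ha)
        have hb' := Finset.mem_range.1 (Finset.mem_coe.1 hb)
        rcases lt_trichotomy a b with h1 | h1 | h1
        · exact absurd e (key a b h1 hb')
        · exact h1
        · exact absurd e.symm (key b a h1 ha')
    rw [Finset.card_range] at hcard
    omega
  have hτn := (τ1 (j + 1) hj).1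
  have hlt := τ4 j hj
  have hlt' : ((τ j : ℕ) : ℝ) ≤ (τ (j + 1) : ℕ) := by exact_mod_cast hlt.le
  obtain ⟨k, t, ht, u, hu, e⟩ := pair (γ := lin n (fun k => pt (v k)))
    (γ' := lin m (fun k => pt (v' k))) (κ := κ) (s := pt x) (c0 := 2 * D) (ρ := j * h + 1)
    (ρ' := ((j + 1 : ℕ) : ℝ) * h + 1) (T := (τ j : ℕ)) (T' := (τ (j + 1) : ℕ)) (t' := (kM2 : ℕ))
    (lin_cont _ _) (by rw [lin_zero, v0]; simp [pt]) (lin_cont _ _)
    (by rw [lin_zero, v0']; simp [pt]) κc κ0 κ1 (Nat.cast_nonneg _) hlt' (Nat.cast_nonneg _) κn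
    (lin_bound (by omega) (τ3 j (by omega))) (lin_bound hτn (τ3 (j + 1) hj))
    (by
      rw [lin_nat hτn]
      have h1 := (τ1 (j + 1) hj).2
      push_cast at h1
      nlinarith)
    (by
      rw [lin_nat hkM2]
      have h1 := hJh (j + 1) hj
      push_cast at h1 hkM2' ⊢
      have h2 : (1 : ℝ) ≤ (D : ℝ) ^ 2 := by nlinarith
      have h3 : (D : ℝ) ≤ (D : ℝ) ^ 2 := by nlinarith
      linarith)
    hlate
  have h1 : t ≤ n := ht.2.trans (by exact_mod_cast hτn)
  have h2 : u ≤ m := hu.2.trans (by exact_mod_cast hkM2)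
  obtain ⟨i, hi, l, hl, _, _, e'⟩ := to_lattice hv hv' ht.1 h1 hu.1 h2 e
  exact ⟨k, i, hi, l, hl, e'⟩

/-- a self-avoiding walk with `10 ^ 6 * D ^ 4` steps goes far enough -/
theorem far_saw {m : ℕ} {v' : ℕ → ℤ × ℤ} (inj' : ∀ i ≤ m, ∀ j ≤ m, v' i = v' j → i = j)
    {D : ℕ} (hD1 : 1 ≤ D) (hm : 10 ^ 6 * D ^ 4 ≤ m) :
    ∃ k ≤ m, ((492 * D ^ 2 : ℕ) : ℝ) < ‖pt (v' k)‖ := by
  have hD2 : D ^ 2 ≤ D ^ 4 := Nat.pow_le_pow_right hD1 (by norm_num)
  have hD4 : 1 ≤ D ^ 4 := Nat.one_le_pow _ _ hD1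
  refine reach inj' ?_
  have e : (2 * (492 * D ^ 2) + 1) ^ 2 = 968256 * D ^ 4 + 1968 * D ^ 2 + 1 := by ring
  rw [e]
  omega

/-- a path which goes far in the `ℓ¹` norm -/
theorem far_path {z : ℤ × ℤ} {D : ℕ} (hD1 : 1 ≤ D) (hz : 10 ^ 3 * (D : ℤ) ^ 2 ≤ |z.1| + |z.2|) :
    ((492 * D ^ 2 : ℕ) : ℝ) < ‖pt z‖ := by
  have h1 := Complex.abs_re_le_norm (pt z)
  have h2 := Complex.abs_im_le_norm (pt z)
  rw [pt_re] at h1
  rw [pt_im] at h2
  have h3 : (10 ^ 3 * (D : ℝ) ^ 2) ≤ |(z.1 : ℝ)| + |(z.2 : ℝ)| := by exact_mod_cast hz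
  have h4 : (1 : ℝ) ≤ (D : ℝ) ^ 2 := by
    have : (1 : ℝ) ≤ D := by exact_mod_cast hD1
    nlinarith
  push_cast
  linarith

end Pool.Agent.H986.MT
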