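import Pool.Agent.H986.MT.Lay

/-!
Symmetry: the probability that two independent self-avoiding walks meet is at least one eighth of
the probability that one of the eight symmetric pairs meets.
-/

set_option autoImplicit false

namespace Pool.Agent.H986.MT

/-- `ω` is an `n`-step self-avoiding walk on `ℤ²` started at the origin. -/
def IsSAW (n : ℕ) (ω : Fin (n + 1) → ℤ × ℤ) : Prop :=
  ω 0 = (0, 0) ∧
  (∀ i : Fin n, |(ω i.succ).1 - (ω i.castSucc).1| + |(ω i.succ).2 - (ω i.castSucc).2| = 1) ∧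
  Function.Injective ω

/-- The probability of the event `E` for the uniform `n`-step self-avoiding walk. -/
noncomputable def prob (n : ℕ) (E : (Fin (n + 1) → ℤ × ℤ) → Prop) : ℝ :=
  ({ω | IsSAW n ω ∧ E ω}.ncard : ℝ) / ({ω | IsSAW n ω}.ncard : ℝ)

/-- the walk as a sequence -/
def seq {n : ℕ} (ω : Fin (n + 1) → ℤ × ℤ) (k : ℕ) : ℤ × ℤ := ω ⟨min k n, by omega⟩

theorem seq_of_le {n : ℕ} (ω : Fin (n + 1) → ℤ × ℤ) {k : ℕ} (h : k ≤ n) :
    seq ω k = ω ⟨k, by omega⟩ := by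
  unfold seq
  congr 1
  exact Fin.ext (min_eq_left h)

theorem seq_zero {n : ℕ} {ω : Fin (n + 1) → ℤ × ℤ} (h : IsSAW n ω) : seq ω 0 = 0 := by
  rw [seq_of_le ω (Nat.zero_le n)]
  exact h.1

theorem seq_near {n : ℕ} {ω : Fin (n + 1) → ℤ × ℤ} (h : IsSAW n ω) :
    ∀ k < n, Near (seq ω k) (seq ω (k + 1)) := by
  intro k hk
  rw [seq_of_le ω hk.le, seq_of_le ω hk]
  exact (h.2.1 ⟨k, hk⟩).le

theorem seq_inj {n : ℕ} {ω : Fin (n + 1) → ℤ × ℤ} (h : IsSAW n ω) :
    ∀ i ≤ n, ∀ j ≤ n, seq ω i = seq ω j → i = j := by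
  intro i hi j hj e
  rw [seq_of_le ω hi, seq_of_le ω hj] at e
  exact congrArg Fin.val (h.2.2 e)

theorem bound {n : ℕ} {ω : Fin (n + 1) → ℤ × ℤ} (h : IsSAW n ω) :
    ∀ k ≤ n, |(seq ω k).1| ≤ k ∧ |(seq ω k).2| ≤ k := by
  intro k
  induction k with
  | zero =>
    intro _
    rw [seq_zero h]
    simp
  | succ k ih =>
    intro hk
    have h1 := ih (by omega)
    have h2 : |(seq ω (k + 1)).1 - (seq ω k).1| + |(seq ω (k + 1)).2 - (seq ω k).2| ≤ 1 :=
      seq_near h k (by omega)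
    have h3 := abs_le.1 h1.1
    have h4 := abs_le.1 h1.2
    have h5 := abs_le.1 (le_of_add_le_of_nonneg_left h2 (abs_nonneg _))
    have h6 := abs_le.1 (le_of_add_le_of_nonneg_right h2 (abs_nonneg _))
    push_cast
    constructor <;> rw [abs_le] <;> constructor <;> linarith

theorem finite_saw (n : ℕ) : {ω : Fin (n + 1) → ℤ × ℤ | IsSAW n ω}.Finite := by
  have h : (Set.univ.pi fun _ : Fin (n + 1) =>
      (((Finset.Icc (-(n : ℤ)) n ×ˢ Finset.Icc (-(n : ℤ)) n : Finset (ℤ × ℤ)) :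
        Set (ℤ × ℤ)))).Finite := Set.Finite.pi fun _ => Finset.finite_toSet _
  refine h.subset ?_
  intro ω hω i _
  have h1 := bound hω i.1 (by omega)
  rw [seq_of_le ω (by omega)] at h1
  have h2 : ω ⟨i.1, by omega⟩ = ω i := rfl
  rw [h2] at h1
  rw [abs_le, abs_le] at h1
  have hi : (i.1 : ℤ) ≤ n := by
    have := i.2
    omega
  simp only [Finset.coe_product, Set.mem_prod, Finset.coe_Icc, Set.mem_Icc]
  refine ⟨⟨?_, ?_⟩, ⟨?_, ?_⟩⟩ <;> linarith [h1.1.1, h1.1.2, h1.2.1, h1.2.2]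

theorem exists_saw (n : ℕ) : IsSAW n (fun i : Fin (n + 1) => ((i.1 : ℤ), (0 : ℤ))) := by
  refine ⟨by simp, ?_, ?_⟩
  · intro i
    simp
  · intro i j h
    simp only [Prod.mk.injEq, and_true] at h
    exact Fin.ext (by exact_mod_cast h)

theorem count_pos (n : ℕ) : 0 < ({ω : Fin (n + 1) → ℤ × ℤ | IsSAW n ω}.ncard : ℝ) := by
  have : 0 < {ω : Fin (n + 1) → ℤ × ℤ | IsSAW n ω}.ncard :=
    (Set.ncard_pos (finite_saw n)).2 ⟨_, show IsSAW n _ from exists_saw n⟩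
  exact_mod_cast this

theorem saw_rt {n : ℕ} {ω : Fin (n + 1) → ℤ × ℤ} (h : IsSAW n ω) :
    IsSAW n (fun i => rt (ω i)) := by
  obtain ⟨h1, h2, h3⟩ := h
  refine ⟨?_, ?_, ?_⟩
  · simp only [h1, rt]
    simp
  · intro i
    have := h2 i
    simp only [rt]
    have e : -(ω i.succ).2 - -(ω i.castSucc).2 = -((ω i.succ).2 - (ω i.castSucc).2) := by ring
    rw [e, abs_neg, add_comm]
    exact this
  · intro i j e
    apply h3
    simp only [rt, Prod.mk.injEq, neg_inj] at e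
    exact Prod.ext e.2 e.1

theorem saw_rt_iter {n : ℕ} (k : ℕ) {ω : Fin (n + 1) → ℤ × ℤ} (h : IsSAW n ω) :
    IsSAW n (fun i => rt^[k] (ω i)) := by
  induction k with
  | zero => exact h
  | succ k ih =>
    simp only [Function.iterate_succ_apply']
    exact saw_rt ih

theorem rt_inj : Function.Injective rt := by
  intro p q h
  unfold rt at h
  simp only [Prod.mk.injEq, neg_inj] at h
  exact Prod.ext h.2 h.1

theorem rt_two (p : ℤ × ℤ) : rt^[2] p = -p := by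
  simp [rt, Prod.ext_iff]

/-- The probability that the first `N` steps of the walk `ω` meet the first `M` steps of the shifted
walk `x + ω'`, where `ω` and `ω'` are independent uniform self-avoiding walks with `n` and `m`
steps. -/
noncomputable def meetProb (n m N M : ℕ) (x : ℤ × ℤ) : ℝ :=
  ({p : (Fin (n + 1) → ℤ × ℤ) × (Fin (m + 1) → ℤ × ℤ) | IsSAW n p.1 ∧ IsSAW m p.2 ∧
    ∃ (i : Fin (n + 1)) (j : Fin (m + 1)), (i : ℕ) ≤ N ∧ (j : ℕ) ≤ M ∧ p.1 i = x + p.2 j}.ncard : ℝ) /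
      (({ω | IsSAW n ω}.ncard : ℝ) * ({ω | IsSAW m ω}.ncard : ℝ))

open Classical in
/-- **The eight pairs.** -/
theorem eight {n m N M : ℕ} (x : ℤ × ℤ) (P : (Fin (n + 1) → ℤ × ℤ) → Prop)
    (Q : (Fin (m + 1) → ℤ × ℤ) → Prop)
    (h : ∀ ω ω', IsSAW n ω → IsSAW m ω' → P ω → Q ω' →
      ∃ k, ∃ i ≤ n, ∃ j ≤ m, i ≤ N ∧ j ≤ M ∧
        (rt^[k] (seq ω i) = seq ω' j + x ∨ rt^[k] (seq ω i) = seq ω' j + -x)) :
    prob n P * prob m Q ≤ 8 * meetProb n m N M x := by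
  have hfn := finite_saw n
  have hfm := finite_saw m
  set A := hfn.toFinset with hA
  set B := hfm.toFinset with hB
  have eA : ({ω : Fin (n + 1) → ℤ × ℤ | IsSAW n ω}.ncard : ℝ) = A.card := by
    rw [hA, Set.ncard_eq_toFinset_card _ hfn]
  have eB : ({ω : Fin (m + 1) → ℤ × ℤ | IsSAW m ω}.ncard : ℝ) = B.card := by
    rw [hB, Set.ncard_eq_toFinset_card _ hfm]
  have memA : ∀ ω, ω ∈ A ↔ IsSAW n ω := fun ω => by simp [hA]
  have memB : ∀ ω, ω ∈ B ↔ IsSAW m ω := fun ω => by simp [hB]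
  have eP : ({ω : Fin (n + 1) → ℤ × ℤ | IsSAW n ω ∧ P ω}.ncard : ℝ) = (A.filter P).card := by
    rw [← Set.ncard_coe_finset]
    congr 2
    ext ω
    simp [memA]
  have eQ : ({ω : Fin (m + 1) → ℤ × ℤ | IsSAW m ω ∧ Q ω}.ncard : ℝ) = (B.filter Q).card := by
    rw [← Set.ncard_coe_finset]
    congr 2
    ext ω
    simp [memB]
  set MM := (A ×ˢ B).filter (fun p : (Fin (n + 1) → ℤ × ℤ) × (Fin (m + 1) → ℤ × ℤ) =>
    ∃ (i : Fin (n + 1)) (j : Fin (m + 1)), (i : ℕ) ≤ N ∧ (j : ℕ) ≤ M ∧ p.1 i = x + p.2 j) with hMM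
  have eM : ({p : (Fin (n + 1) → ℤ × ℤ) × (Fin (m + 1) → ℤ × ℤ) | IsSAW n p.1 ∧ IsSAW m p.2 ∧
      ∃ (i : Fin (n + 1)) (j : Fin (m + 1)), (i : ℕ) ≤ N ∧ (j : ℕ) ≤ M ∧ p.1 i = x + p.2 j}.ncard : ℝ) = MM.card := by
    rw [← Set.ncard_coe_finset]
    congr 2
    ext p
    simp only [hMM, Finset.coe_filter, Finset.mem_product, memA, memB, Set.mem_ofPred_eq]
    tauto
  let Bk : ℕ × Bool → (Fin (n + 1) → ℤ × ℤ) × (Fin (m + 1) → ℤ × ℤ) → Prop := fun kb p =>
    ∃ (i : Fin (n + 1)) (j : Fin (m + 1)), (i : ℕ) ≤ N ∧ (j : ℕ) ≤ M ∧ rt^[kb.1] (p.1 i) = p.2 j + (if kb.2 then x else -x)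
  have hsub : (A.filter P) ×ˢ (B.filter Q) ⊆ (Finset.range 4 ×ˢ (Finset.univ : Finset Bool)).biUnion
      fun kb => (A ×ˢ B).filter (Bk kb) := by
    rintro ⟨ω, ω'⟩ hp
    rw [Finset.mem_product, Finset.mem_filter, Finset.mem_filter, memA, memB] at hp
    obtain ⟨k, i, hi, j, hj, hiN, hjN, e⟩ := h ω ω' hp.1.1 hp.2.1 hp.1.2 hp.2.2
    rw [rt_mod, seq_of_le ω hi, seq_of_le ω' hj] at e
    rw [Finset.mem_biUnion]
    rcases e with e | e
    · refine ⟨(k % 4, true), ?_, ?_⟩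
      · simp [Nat.mod_lt]
      · rw [Finset.mem_filter, Finset.mem_product, memA, memB]
        exact ⟨⟨hp.1.1, hp.2.1⟩, _, _, hiN, hjN, by simpa using e⟩
    · refine ⟨(k % 4, false), ?_, ?_⟩
      · simp [Nat.mod_lt]
      · rw [Finset.mem_filter, Finset.mem_product, memA, memB]
        exact ⟨⟨hp.1.1, hp.2.1⟩, _, _, hiN, hjN, by simpa using e⟩
  have hcard : ∀ kb ∈ Finset.range 4 ×ˢ (Finset.univ : Finset Bool),
      ((A ×ˢ B).filter (Bk kb)).card ≤ MM.card := by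
    rintro ⟨k, b⟩ _
    have rinj : ∀ l : ℕ, Function.Injective rt^[l] := fun l => rt_inj.iterate l
    rcases b with _ | _
    · refine Finset.card_le_card_of_injOn
        (fun p => (fun i => rt^[2] (rt^[k] (p.1 i)), fun j => rt^[2] (p.2 j))) ?_ ?_
      · rintro ⟨ω, ω'⟩ hp
        rw [Finset.mem_coe, Finset.mem_filter, Finset.mem_product, memA, memB] at hp
        obtain ⟨⟨h1, h2⟩, i, j, hiN, hjN, e⟩ := hp
        rw [Finset.mem_coe, hMM, Finset.mem_filter, Finset.mem_product, memA, memB]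
        refine ⟨⟨saw_rt_iter 2 (saw_rt_iter k h1), saw_rt_iter 2 h2⟩, i, j, hiN, hjN, ?_⟩
        have e' : rt^[k] (ω i) = ω' j + -x := by simpa using e
        change rt^[2] (rt^[k] (ω i)) = x + rt^[2] (ω' j)
        rw [rt_two, rt_two, e']
        abel
      · rintro ⟨ω, ω'⟩ _ ⟨η, η'⟩ _ e
        simp only [Prod.mk.injEq] at e
        refine Prod.ext (funext fun i => ?_) (funext fun j => ?_)
        · exact rinj k (rinj 2 (congrFun e.1 i))
        · exact rinj 2 (congrFun e.2 j)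
    · refine Finset.card_le_card_of_injOn
        (fun p => (fun i => rt^[k] (p.1 i), p.2)) ?_ ?_
      · rintro ⟨ω, ω'⟩ hp
        rw [Finset.mem_coe, Finset.mem_filter, Finset.mem_product, memA, memB] at hp
        obtain ⟨⟨h1, h2⟩, i, j, hiN, hjN, e⟩ := hp
        rw [Finset.mem_coe, hMM, Finset.mem_filter, Finset.mem_product, memA, memB]
        refine ⟨⟨saw_rt_iter k h1, h2⟩, i, j, hiN, hjN, ?_⟩
        have e' : rt^[k] (ω i) = ω' j + x := by simpa using e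
        change rt^[k] (ω i) = x + ω' j
        rw [e', add_comm]
      · rintro ⟨ω, ω'⟩ _ ⟨η, η'⟩ _ e
        simp only [Prod.mk.injEq] at e
        refine Prod.ext (funext fun i => ?_) e.2
        exact rinj k (congrFun e.1 i)
  have hle : ((A.filter P) ×ˢ (B.filter Q)).card ≤ 8 * MM.card := by
    refine (Finset.card_le_card hsub).trans (Finset.card_biUnion_le.trans ?_)
    refine (Finset.sum_le_card_nsmul _ _ _ hcard).trans ?_
    rw [Finset.card_product, Finset.card_range, Finset.card_univ, Fintype.card_bool, smul_eq_mul]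
  rw [Finset.card_product] at hle
  have hle' : ((A.filter P).card : ℝ) * ((B.filter Q).card : ℝ) ≤ 8 * (MM.card : ℝ) := by
    exact_mod_cast hle
  have pA := count_pos n
  have pB := count_pos m
  unfold prob meetProb
  rw [eP, eQ, eM, div_mul_div_comm, ← mul_div_assoc]
  exact div_le_div_of_nonneg_right hle' (mul_pos pA pB).le

theorem prob_le {n : ℕ} {P Q : (Fin (n + 1) → ℤ × ℤ) → Prop} (h : ∀ ω, IsSAW n ω → P ω → Q ω) :
    prob n P ≤ prob n Q := by
  unfold prob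
  apply div_le_div_of_nonneg_right _ (Nat.cast_nonneg _)
  have : {ω | IsSAW n ω ∧ P ω}.ncard ≤ {ω | IsSAW n ω ∧ Q ω}.ncard :=
    Set.ncard_le_ncard (fun ω hω => ⟨hω.1, h ω hω.1 hω.2⟩)
      ((finite_saw n).subset fun ω hω => hω.1)
  exact_mod_cast this

theorem prob_or {n : ℕ} (P Q : (Fin (n + 1) → ℤ × ℤ) → Prop) :
    prob n (fun ω => P ω ∨ Q ω) ≤ prob n P + prob n Q := by
  unfold prob
  rw [← add_div]
  apply div_le_div_of_nonneg_right _ (Nat.cast_nonneg _)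
  have e : {ω | IsSAW n ω ∧ (P ω ∨ Q ω)} = {ω | IsSAW n ω ∧ P ω} ∪ {ω | IsSAW n ω ∧ Q ω} := by
    ext ω
    simp only [Set.mem_ofPred_eq, Set.mem_union]
    tauto
  rw [e]
  exact_mod_cast Set.ncard_union_le _ _

theorem prob_rt {n : ℕ} (k : ℕ) (P : (Fin (n + 1) → ℤ × ℤ) → Prop) :
    prob n (fun ω => P (fun i => rt^[k] (ω i))) ≤ prob n P := by
  unfold prob
  apply div_le_div_of_nonneg_right _ (Nat.cast_nonneg _)
  have : {ω | IsSAW n ω ∧ P (fun i => rt^[k] (ω i))}.ncard ≤ {ω | IsSAW n ω ∧ P ω}.ncard := by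
    refine Set.ncard_le_ncard_of_injOn (fun ω i => rt^[k] (ω i)) ?_ ?_
      ((finite_saw n).subset fun ω hω => hω.1)
    · intro ω hω
      exact ⟨saw_rt_iter k hω.1, hω.2⟩
    · intro ω _ ω' _ e
      funext i
      exact rt_inj.iterate k (congrFun e i)
  exact_mod_cast this

/-- **The quenched version.** -/
theorem four {n l N : ℕ} (x : ℤ × ℤ) (u : Fin (l + 1) → ℤ × ℤ) (P : (Fin (n + 1) → ℤ × ℤ) → Prop)
    (h : ∀ ω, IsSAW n ω → P ω → ∃ k, ∃ i ≤ n, ∃ j ≤ l, i ≤ N ∧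
        (rt^[k] (seq ω i) = seq u j + x ∨ rt^[k] (seq ω i) = seq u j + -x)) :
    prob n P ≤ 4 * (prob n (fun ω => ∃ (i : Fin (n + 1)) (j : Fin (l + 1)), (i : ℕ) ≤ N ∧ ω i = x + u j) +
      prob n (fun ω => ∃ (i : Fin (n + 1)) (j : Fin (l + 1)), (i : ℕ) ≤ N ∧ ω i = x - u j)) := by
  set R : (Fin (n + 1) → ℤ × ℤ) → Prop := fun ω =>
    (∃ (i : Fin (n + 1)) (j : Fin (l + 1)), (i : ℕ) ≤ N ∧ ω i = x + u j) ∨ ∃ (i : Fin (n + 1)) (j : Fin (l + 1)), (i : ℕ) ≤ N ∧ ω i = x - u j with hR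
  have h1 : prob n P ≤ prob n (fun ω => (R (fun i => rt^[0] (ω i)) ∨ R (fun i => rt^[1] (ω i))) ∨
      (R (fun i => rt^[2] (ω i)) ∨ R (fun i => rt^[3] (ω i)))) := by
    refine prob_le fun ω hω hP => ?_
    obtain ⟨k, i, hi, j, hj, hiN, e⟩ := h ω hω hP
    rw [seq_of_le ω hi, seq_of_le u hj] at e
    have key : ∃ k' < 4, R (fun i => rt^[k'] (ω i)) := by
      rcases e with e | e
      · refine ⟨k % 4, Nat.mod_lt _ (by norm_num), Or.inl ⟨⟨i, by omega⟩, ⟨j, by omega⟩, hiN,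
          ?_⟩⟩
        change rt^[k % 4] (ω ⟨i, by omega⟩) = _
        rw [← rt_mod, e, add_comm]
      · refine ⟨(2 + k) % 4, Nat.mod_lt _ (by norm_num), Or.inr ⟨⟨i, by omega⟩, ⟨j, by omega⟩, hiN,
          ?_⟩⟩
        change rt^[(2 + k) % 4] (ω ⟨i, by omega⟩) = _
        rw [← rt_mod, Function.iterate_add_apply, rt_two, e]
        abel
    obtain ⟨k', hk', hR'⟩ := key
    have : k' = 0 ∨ k' = 1 ∨ k' = 2 ∨ k' = 3 := by omega
    rcases this with rfl | rfl | rfl | rfl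
    · exact Or.inl (Or.inl hR')
    · exact Or.inl (Or.inr hR')
    · exact Or.inr (Or.inl hR')
    · exact Or.inr (Or.inr hR')
  have h2 := prob_or (n := n) (fun ω => R (fun i => rt^[0] (ω i)) ∨ R (fun i => rt^[1] (ω i)))
    (fun ω => R (fun i => rt^[2] (ω i)) ∨ R (fun i => rt^[3] (ω i)))
  have h3 := prob_or (n := n) (fun ω => R (fun i => rt^[0] (ω i)))
    (fun ω => R (fun i => rt^[1] (ω i)))
  have h4 := prob_or (n := n) (fun ω => R (fun i => rt^[2] (ω i)))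
    (fun ω => R (fun i => rt^[3] (ω i)))
  have r0 := prob_rt (n := n) 0 R
  have r1 := prob_rt (n := n) 1 R
  have r2 := prob_rt (n := n) 2 R
  have r3 := prob_rt (n := n) 3 R
  have h5 := prob_or (n := n) (fun ω => ∃ (i : Fin (n + 1)) (j : Fin (l + 1)), (i : ℕ) ≤ N ∧ ω i = x + u j)
    (fun ω => ∃ (i : Fin (n + 1)) (j : Fin (l + 1)), (i : ℕ) ≤ N ∧ ω i = x - u j)
  linarith

theorem prob_true (n : ℕ) : prob n (fun _ => True) = 1 := by
  unfold prob
  simp only [and_true]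
  exact div_self (count_pos n).ne'

/-- the `ℓ¹` norm as a natural number -/
theorem exists_D {x : ℤ × ℤ} (hx : x ≠ 0) : ∃ D : ℕ, 1 ≤ D ∧ |x.1| + |x.2| = D := by
  obtain ⟨D, hD⟩ := Int.eq_ofNat_of_zero_le (by positivity : 0 ≤ |x.1| + |x.2|)
  refine ⟨D, ?_, hD⟩
  rcases Nat.eq_zero_or_pos D with h0 | h0
  · exfalso
    apply hx
    rw [h0] at hD
    have h1 := abs_nonneg x.1
    have h2 := abs_nonneg x.2
    have h3 : |x.1| = 0 := by push_cast at hD; omega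
    have h4 : |x.2| = 0 := by push_cast at hD; omega
    exact Prod.ext (abs_eq_zero.1 h3) (abs_eq_zero.1 h4)
  · exact h0

/-- **Part one**, two walks. -/
theorem part_one (x : ℤ × ℤ) (N n m : ℕ) (hN : 10 ^ 6 * (|x.1| + |x.2|) ^ 4 ≤ (N : ℤ)) (hn : N ≤ n)
    (hm : N ≤ m) : 1 / 8 ≤ meetProb n m N N x := by
  have key := eight (n := n) (m := m) (N := N) (M := N) x (fun _ => True) (fun _ => True) (by
    intro ω ω' h h' _ _
    rcases eq_or_ne x 0 with rfl | hx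
    · exact ⟨0, 0, Nat.zero_le _, 0, Nat.zero_le _, Nat.zero_le _, Nat.zero_le _, Or.inl (by
        rw [seq_zero h, seq_zero h']
        simp)⟩
    · obtain ⟨D, hD1, hD⟩ := exists_D hx
      rw [hD] at hN
      have hN' : 10 ^ 6 * D ^ 4 ≤ N := by exact_mod_cast hN
      obtain ⟨k, i, hi, j, hj, e⟩ := det (n := N) (m := N) (v := seq ω) (v' := seq ω') (seq_zero h)
        (seq_zero h') (fun k hk => seq_near h k (by omega)) (fun k hk => seq_near h' k (by omega))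
        (fun i hi j hj => seq_inj h i (by omega) j (by omega)) x hD1 hD.le hN'
        (far_saw (fun i hi j hj => seq_inj h' i (by omega) j (by omega)) hD1 hN')
      exact ⟨k, i, by omega, j, by omega, hi, hj, e⟩)
  rw [prob_true, prob_true] at key
  linarith

/-- **Part one**, a walk and a path. -/
theorem part_one_q (x : ℤ × ℤ) (N n l : ℕ) (u : Fin (l + 1) → ℤ × ℤ) (u0 : u 0 = (0, 0))
    (u1 : ∀ i : Fin l, |(u i.succ).1 - (u i.castSucc).1| + |(u i.succ).2 - (u i.castSucc).2| = 1)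
    (hN : 10 ^ 6 * (|x.1| + |x.2|) ^ 4 ≤ (N : ℤ)) (hn : N ≤ n)
    (hu : ∃ j, 10 ^ 3 * (|x.1| + |x.2|) ^ 2 ≤ |(u j).1| + |(u j).2|) :
    1 / 4 ≤ prob n (fun ω => ∃ (i : Fin (n + 1)) (j : Fin (l + 1)), (i : ℕ) ≤ N ∧ ω i = x + u j) +
      prob n (fun ω => ∃ (i : Fin (n + 1)) (j : Fin (l + 1)), (i : ℕ) ≤ N ∧ ω i = x - u j) := by
  have s0 : seq u 0 = 0 := by
    rw [seq_of_le u (Nat.zero_le l)]
    exact u0
  have s1 : ∀ k < l, Near (seq u k) (seq u (k + 1)) := by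
    intro k hk
    rw [seq_of_le u hk.le, seq_of_le u hk]
    exact (u1 ⟨k, hk⟩).le
  have key := four (n := n) (l := l) (N := N) x u (fun _ => True) (by
    intro ω h _
    rcases eq_or_ne x 0 with rfl | hx
    · exact ⟨0, 0, Nat.zero_le _, 0, Nat.zero_le _, Nat.zero_le _, Or.inl (by
        rw [seq_zero h, s0]
        simp)⟩
    · obtain ⟨D, hD1, hD⟩ := exists_D hx
      rw [hD] at hN hu
      have hN' : 10 ^ 6 * D ^ 4 ≤ N := by exact_mod_cast hN
      obtain ⟨j, hj⟩ := hu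
      obtain ⟨k, i, hi, j, hj, e⟩ := det (n := N) (m := l) (v := seq ω) (v' := seq u) (seq_zero h)
        s0 (fun k hk => seq_near h k (by omega)) s1
        (fun i hi j hj => seq_inj h i (by omega) j (by omega)) x hD1 hD.le hN'
        ⟨j.1, by omega, by
          rw [seq_of_le u (by omega)]
          exact far_path hD1 hj⟩
      exact ⟨k, i, by omega, j, hj, hi, e⟩)
  rw [prob_true] at key
  linarith

end Pool.Agent.H986.MT
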