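import Pool.Agent.H986.MT.Sep

/-!
Two curves which start close to each other: one of eight symmetric pairs intersects.
-/

set_option autoImplicit false

namespace Pool.Agent.H986.MT

open Complex

/-- the four rotated copies of the curve up to time `T` -/
def A (γ : ℝ → ℂ) (T : ℝ) : Set ℂ := {z | ∃ k : ℕ, ∃ t ∈ Set.Icc (0 : ℝ) T, z = I ^ k * γ t}

theorem A_mul {γ : ℝ → ℂ} {T : ℝ} {z : ℂ} (h : z ∈ A γ T) (m : ℕ) : I ^ m * z ∈ A γ T := by
  obtain ⟨k, t, ht, rfl⟩ := h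
  exact ⟨m + k, t, ht, by rw [pow_add]; ring⟩

theorem A_neg {γ : ℝ → ℂ} {T : ℝ} {z : ℂ} (h : z ∈ A γ T) : -z ∈ A γ T := by
  have := A_mul h 2
  rw [I_sq] at this
  simpa using this

theorem A_mono {γ : ℝ → ℂ} {T T' : ℝ} (h : T ≤ T') : A γ T ⊆ A γ T' := by
  rintro z ⟨k, t, ht, rfl⟩
  exact ⟨k, t, ⟨ht.1, ht.2.trans h⟩, rfl⟩

theorem I_pow_four : (I : ℂ) ^ 4 = 1 := by
  have : (I : ℂ) ^ 4 = (I ^ 2) ^ 2 := by ring
  rw [this, I_sq]
  norm_num

theorem A_eq (γ : ℝ → ℂ) (T : ℝ) :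
    A γ T = ⋃ k ∈ Finset.range 4, (fun t => I ^ k * γ t) '' Set.Icc (0 : ℝ) T := by
  ext z
  simp only [Set.mem_iUnion, Finset.mem_range, Set.mem_image]
  constructor
  · rintro ⟨k, t, ht, rfl⟩
    refine ⟨k % 4, Nat.mod_lt _ (by norm_num), t, ht, ?_⟩
    have : (I : ℂ) ^ k = I ^ (k % 4) := by
      conv_lhs => rw [← Nat.div_add_mod k 4, pow_add, pow_mul, I_pow_four, one_pow, one_mul]
    rw [this]
  · rintro ⟨k, _, t, ht, rfl⟩
    exact ⟨k, t, ht, rfl⟩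

theorem A_closed {γ : ℝ → ℂ} (hγ : Continuous γ) (T : ℝ) : IsClosed (A γ T) := by
  rw [A_eq]
  refine IsCompact.isClosed ?_
  refine (Finset.range 4).isCompact_biUnion fun k _ => ?_
  exact isCompact_Icc.image (by fun_prop)

theorem A_joined {γ : ℝ → ℂ} (hγ : Continuous γ) (h0 : γ 0 = 0) {T : ℝ} {z : ℂ}
    (h : z ∈ A γ T) : JoinedIn (A γ T) 0 z := by
  obtain ⟨k, t, ht, rfl⟩ := h
  refine JoinedIn.ofLine (f := fun u => I ^ k * γ (u * t)) (by fun_prop) ?_ ?_ ?_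
  · simp [h0]
  · simp
  · rintro _ ⟨u, hu, rfl⟩
    refine ⟨k, u * t, ⟨mul_nonneg hu.1 ht.1, ?_⟩, rfl⟩
    exact (mul_le_of_le_one_left ht.1 hu.2).trans ht.2

theorem joined_map {F G : Set ℂ} {x y : ℂ} (f : ℂ → ℂ) (hf : Continuous f)
    (h : JoinedIn F x y) (hFG : ∀ z ∈ F, f z ∈ G) : JoinedIn G (f x) (f y) := by
  obtain ⟨p, hp⟩ := h
  exact ⟨p.map hf, fun t => hFG _ (hp t)⟩

theorem joined_curve {γ : ℝ → ℂ} (hγ : Continuous γ) {t : ℝ} (ht : 0 ≤ t) :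
    JoinedIn (γ '' Set.Icc 0 t) (γ 0) (γ t) := by
  refine JoinedIn.ofLine (f := fun u => γ (u * t)) (by fun_prop) (by simp) (by simp) ?_
  rintro _ ⟨u, hu, rfl⟩
  exact ⟨u * t, ⟨mul_nonneg hu.1 ht, mul_le_of_le_one_left ht hu.2⟩, rfl⟩

theorem hit {P Q : Set ℂ} (hP : IsClosed P) (hQ : IsClosed Q) (hPQ : ∀ z ∈ P, z ∉ Q)
    {κ : ℝ → ℂ} (hκ : Continuous κ) (h1 : κ 1 ∈ P) :
    (∃ h ∈ P, JoinedIn (Qᶜ ∩ κ '' Set.Icc 0 1) (κ 0) h) ∨
      (∃ h ∈ Q, JoinedIn (Pᶜ ∩ κ '' Set.Icc 0 1) (κ 0) h) := by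
  set S : Set ℝ := Set.Icc 0 1 ∩ κ ⁻¹' (P ∪ Q) with hS
  have hc : IsCompact S := isCompact_Icc.inter_right ((hP.union hQ).preimage hκ)
  have hne : S.Nonempty := ⟨1, by simp, Or.inl h1⟩
  have hτ : sInf S ∈ S := hc.sInf_mem hne
  set τ := sInf S with hτd
  have hlt : ∀ u, 0 ≤ u → u < τ → κ u ∉ P ∧ κ u ∉ Q := by
    intro u hu0 hu
    have h2 : u ∉ S := fun h => absurd (csInf_le hc.bddBelow h) (not_le.2 hu)
    have h3 : u ∈ Set.Icc (0 : ℝ) 1 := ⟨hu0, hu.le.trans hτ.1.2⟩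
    constructor
    · exact fun h => h2 ⟨h3, Or.inl h⟩
    · exact fun h => h2 ⟨h3, Or.inr h⟩
  have key : ∀ R : Set ℂ, κ τ ∉ R → (∀ u, 0 ≤ u → u < τ → κ u ∉ R) →
      JoinedIn (Rᶜ ∩ κ '' Set.Icc 0 1) (κ 0) (κ τ) := by
    intro R h2 h3
    refine (joined_curve hκ hτ.1.1).mono ?_
    rintro _ ⟨u, hu, rfl⟩
    refine ⟨?_, u, ⟨hu.1, hu.2.trans hτ.1.2⟩, rfl⟩
    rcases eq_or_lt_of_le hu.2 with h4 | h4
    · rw [h4]
      exact h2
    · exact h3 u hu.1 h4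
  rcases hτ.2 with h | h
  · left
    exact ⟨κ τ, h, key Q (hPQ _ h) fun u h2 h3 => (hlt u h2 h3).2⟩
  · right
    exact ⟨κ τ, h, key P (fun h' => hPQ _ h' h) fun u h2 h3 => (hlt u h2 h3).1⟩

/-- **One curve.** -/
theorem single {γ κ : ℝ → ℂ} (hγ : Continuous γ) (h0 : γ 0 = 0) (hκ : Continuous κ) {s : ℂ}
    (k0 : κ 0 = 0) (k1 : κ 1 = s) {c0 ρ T T' : ℝ} (hT : 0 ≤ T) (hTT : T ≤ T')
    (hc : ∀ u ∈ Set.Icc (0 : ℝ) 1, ‖κ u‖ ≤ c0) (hρ : ∀ t ∈ Set.Icc (0 : ℝ) T, ‖γ t‖ ≤ ρ)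
    (hfar : ρ + ‖s‖ + c0 < ‖γ T'‖)
    (hlate : ∀ t ∈ Set.Ioc T T', ∀ k : ℕ, ∀ u ∈ Set.Icc (0 : ℝ) 1,
      I ^ k * γ t ≠ κ u ∧ I ^ k * γ t ≠ I * κ u ∧ I ^ k * γ t ≠ κ u + I * s ∧
        I ^ k * γ t ≠ I * κ u + s) :
    ∃ z ∈ A γ T', z - s ∈ A γ T' := by
  by_contra hcon
  push Not at hcon
  have hI4 := I_pow_four
  have hρ0 : 0 ≤ ρ := (norm_nonneg _).trans (hρ 0 ⟨le_rfl, hT⟩)
  have hc0 : 0 ≤ c0 := (norm_nonneg _).trans (hc 0 (by simp))
  have hs0 : 0 ≤ ‖s‖ := norm_nonneg s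
  have hd : ∀ m : ℕ, ∀ z ∈ A γ T', z - I ^ m * s ∉ A γ T' := by
    intro m z hz hz'
    have h1 := A_mul hz (3 * m)
    have h2 := A_mul hz' (3 * m)
    refine hcon _ h1 ?_
    have e : I ^ (3 * m) * (z - I ^ m * s) = I ^ (3 * m) * z - s := by
      rw [mul_sub, ← mul_assoc, ← pow_add]
      have : 3 * m + m = 4 * m := by ring
      rw [this, pow_mul I 4 m, hI4, one_pow, one_mul]
    rw [← e]
    exact h2
  have hAρ : ∀ z ∈ A γ T, ‖z‖ ≤ ρ := by
    rintro z ⟨k, t, ht, rfl⟩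
    rw [norm_mul, norm_pow, norm_I, one_pow, one_mul]
    exact hρ t ht
  have h0A : (0 : ℂ) ∈ A γ T := ⟨0, 0, ⟨le_rfl, hT⟩, by simp [h0]⟩
  set F : Set ℂ := (A γ T')ᶜ ∩ {z | ‖z‖ ≤ ρ + ‖s‖ + c0} with hF
  have Frot : ∀ m : ℕ, ∀ z ∈ F, I ^ m * z ∈ F := by
    rintro m z ⟨h1, h2⟩
    refine ⟨fun h => h1 ?_, ?_⟩
    · have h3 := A_mul h (3 * m)
      have e : I ^ (3 * m) * (I ^ m * z) = z := by
        rw [← mul_assoc, ← pow_add]
        have : 3 * m + m = 4 * m := by ring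
        rw [this, pow_mul, hI4, one_pow, one_mul]
      rwa [e] at h3
    · change ‖I ^ m * z‖ ≤ _
      rw [norm_mul, norm_pow, norm_I, one_pow, one_mul]
      exact h2
  have rotJ : ∀ m : ℕ, ∀ {x y : ℂ}, JoinedIn F x y → JoinedIn F (I ^ m * x) (I ^ m * y) :=
    fun m x y h => joined_map (fun z => I ^ m * z) (by fun_prop) h (Frot m)
  have road : ∀ m : ℕ, ∀ z ∈ A γ T, JoinedIn F (z + I ^ m * s) (I ^ m * s) := by
    intro m z hz
    have h1 := joined_map (G := F) (fun w => w + I ^ m * s) (by fun_prop) (A_joined hγ h0 hz) ?_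
    · simp only [zero_add] at h1
      exact h1.symm
    · intro w hw
      refine ⟨fun h => ?_, ?_⟩
      · apply hd m _ h
        rw [add_sub_cancel_right]
        exact A_mono hTT hw
      · change ‖w + I ^ m * s‖ ≤ _
        have h2 := norm_add_le w (I ^ m * s)
        rw [norm_mul, norm_pow, norm_I, one_pow, one_mul] at h2
        have := hAρ w hw
        linarith
  -- points on the square which are not in `A γ T`
  have inF : ∀ z : ℂ, z ∉ A γ T → ‖z‖ ≤ ‖s‖ + c0 →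
      (∀ t ∈ Set.Ioc T T', ∀ k : ℕ, I ^ k * γ t ≠ z) → z ∈ F := by
    intro z h1 h2 h3
    refine ⟨?_, ?_⟩
    · rintro ⟨k, t, ht, e⟩
      rcases le_or_gt t T with h4 | h4
      · exact h1 ⟨k, t, ⟨ht.1, h4⟩, e⟩
      · exact h3 t ⟨h4, ht.2⟩ k e.symm
    · change ‖z‖ ≤ _
      linarith
  have hPc : ∀ m : ℕ, IsClosed {z | z - I ^ m * s ∈ A γ T} := fun m =>
    (A_closed hγ T).preimage (by fun_prop)
  have hPQ : ∀ m : ℕ, ∀ z ∈ {z | z - I ^ m * s ∈ A γ T}, z ∉ A γ T := by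
    intro m z hz hz'
    exact hd m z (A_mono hTT hz') (A_mono hTT hz)
  have nI : ∀ z : ℂ, ‖I * z‖ = ‖z‖ := fun z => by rw [norm_mul, norm_I, one_mul]
  have e3 : (I : ℂ) ^ 3 = -I := by
    rw [pow_succ, I_sq]
    ring
  -- first side
  have s1 : JoinedIn F (s + I * s) s ∨ JoinedIn F (I * s) (-s) := by
    rcases hit (hPc 0) (A_closed hγ T) (hPQ 0) (κ := fun u => I * κ (1 - u) + s) (by fun_prop)
      (by simp [k0, h0A]) with ⟨h, hh, hj⟩ | ⟨h, hh, hj⟩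
    · left
      have h1 : JoinedIn F (I * κ (1 - 0) + s) h := by
        refine hj.mono ?_
        rintro _ ⟨h2, u, hu, rfl⟩
        have hu' : (1 - u) ∈ Set.Icc (0 : ℝ) 1 := ⟨by linarith [hu.2], by linarith [hu.1]⟩
        refine inF _ h2 ?_ fun t ht k => (hlate t ht k _ hu').2.2.2
        have := norm_add_le (I * κ (1 - u)) s
        rw [nI] at this
        have := hc _ hu'
        linarith
      have h2 := road 0 _ hh
      rw [pow_zero, one_mul, sub_add_cancel] at h2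
      rw [sub_zero, k1, add_comm] at h1
      exact h1.trans h2
    · right
      have h1 : JoinedIn F (I * κ (1 - 0) + s - s) (h - s) := by
        refine joined_map (fun z => z - s) (by fun_prop) hj ?_
        rintro _ ⟨h2, u, hu, rfl⟩
        have hu' : (1 - u) ∈ Set.Icc (0 : ℝ) 1 := ⟨by linarith [hu.2], by linarith [hu.1]⟩
        have h3 : I * κ (1 - u) + s - s ∉ A γ T := by
          intro h4
          apply h2
          change I * κ (1 - u) + s - I ^ 0 * s ∈ A γ T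
          rw [pow_zero, one_mul]
          exact h4
        have e : I * κ (1 - u) + s - s = I * κ (1 - u) := by ring
        refine inF _ h3 ?_ fun t ht k => ?_
        · rw [e, nI]
          have := hc _ hu'
          linarith
        · rw [e]
          exact (hlate t ht k _ hu').2.1
      have h2 := road 2 _ hh
      rw [I_sq] at h2
      rw [sub_zero, k1, add_sub_cancel_right] at h1
      have e : h + -1 * s = h - s := by ring
      rw [e, neg_one_mul] at h2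
      exact h1.trans h2
  have s2 : JoinedIn F (s + I * s) (I * s) ∨ JoinedIn F s (-(I * s)) := by
    rcases hit (hPc 1) (A_closed hγ T) (hPQ 1) (κ := fun u => κ (1 - u) + I * s) (by fun_prop)
      (by simp [k0, h0A]) with ⟨h, hh, hj⟩ | ⟨h, hh, hj⟩
    · left
      have h1 : JoinedIn F (κ (1 - 0) + I * s) h := by
        refine hj.mono ?_
        rintro _ ⟨h2, u, hu, rfl⟩
        have hu' : (1 - u) ∈ Set.Icc (0 : ℝ) 1 := ⟨by linarith [hu.2], by linarith [hu.1]⟩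
        refine inF _ h2 ?_ fun t ht k => (hlate t ht k _ hu').2.2.1
        have := norm_add_le (κ (1 - u)) (I * s)
        rw [nI] at this
        have := hc _ hu'
        linarith
      have h2 := road 1 _ hh
      rw [pow_one, sub_add_cancel] at h2
      rw [sub_zero, k1] at h1
      exact h1.trans h2
    · right
      have h1 : JoinedIn F (κ (1 - 0) + I * s - I * s) (h - I * s) := by
        refine joined_map (fun z => z - I * s) (by fun_prop) hj ?_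
        rintro _ ⟨h2, u, hu, rfl⟩
        have hu' : (1 - u) ∈ Set.Icc (0 : ℝ) 1 := ⟨by linarith [hu.2], by linarith [hu.1]⟩
        have h3 : κ (1 - u) + I * s - I * s ∉ A γ T := by
          intro h4
          apply h2
          change κ (1 - u) + I * s - I ^ 1 * s ∈ A γ T
          rw [pow_one]
          exact h4
        have e : κ (1 - u) + I * s - I * s = κ (1 - u) := by ring
        refine inF _ h3 ?_ fun t ht k => ?_
        · rw [e]
          have := hc _ hu'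
          linarith
        · rw [e]
          exact (hlate t ht k _ hu').1
      have h2 := road 3 _ hh
      rw [e3] at h2
      rw [sub_zero, k1, add_sub_cancel_right] at h1
      have e : h + -I * s = h - I * s := by ring
      have e' : -I * s = -(I * s) := by ring
      rw [e, e'] at h2
      exact h1.trans h2
  have main : JoinedIn F s (I * s) := by
    rcases s1 with h1 | h1
    · rcases s2 with h2 | h2
      · exact h1.symm.trans h2
      · have h3 := rotJ 1 h2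
        rw [pow_one] at h3
        have e : I * -(I * s) = s := by
          have : I * -(I * s) = -(I * I) * s := by ring
          rw [this, I_mul_I]
          ring
        rw [e] at h3
        exact h3.symm
    · have h3 := rotJ 3 h1
      rw [e3] at h3
      have e : -I * (I * s) = s := by
        have : -I * (I * s) = -(I * I) * s := by ring
        rw [this, I_mul_I]
        ring
      have e' : -I * -s = I * s := by ring
      rw [e, e'] at h3
      exact h3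
  have h3 := rotJ 1 main
  rw [pow_one] at h3
  have e : I * (I * s) = -s := by
    rw [← mul_assoc, I_mul_I]
    ring
  rw [e] at h3
  have h4 := main.trans h3
  have hw : γ T' ∈ A γ T' := ⟨0, T', ⟨hT.trans hTT, le_rfl⟩, by simp⟩
  obtain ⟨x, hx, hx' | hx'⟩ := sepJ h4 (fun x hx => hx.2) (A_joined hγ h0 hw) hfar
  · exact hx.1 hx'
  · apply hx.1
    have := A_neg hx'
    rwa [neg_neg] at this

/-- **Two curves.** -/
theorem pair {γ γ' κ : ℝ → ℂ} (hγ : Continuous γ) (h0 : γ 0 = 0) (hγ' : Continuous γ')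
    (h0' : γ' 0 = 0) (hκ : Continuous κ) {s : ℂ}
    (k0 : κ 0 = 0) (k1 : κ 1 = 2 * s) {c0 ρ ρ' T T' t' : ℝ} (hT : 0 ≤ T) (hTT : T ≤ T')
    (ht' : 0 ≤ t')
    (hc : ∀ u ∈ Set.Icc (0 : ℝ) 1, ‖κ u‖ ≤ c0) (hρ : ∀ t ∈ Set.Icc (0 : ℝ) T, ‖γ t‖ ≤ ρ)
    (hρ' : ∀ t ∈ Set.Icc (0 : ℝ) T', ‖γ t‖ ≤ ρ')
    (hfar : ρ + ‖2 * s‖ + c0 < ‖γ T'‖) (hfar' : ρ' + ‖s‖ < ‖γ' t'‖)
    (hlate : ∀ t ∈ Set.Ioc T T', ∀ k : ℕ, ∀ u ∈ Set.Icc (0 : ℝ) 1,
      I ^ k * γ t ≠ κ u ∧ I ^ k * γ t ≠ I * κ u ∧ I ^ k * γ t ≠ κ u + I * (2 * s) ∧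
        I ^ k * γ t ≠ I * κ u + 2 * s) :
    ∃ k : ℕ, ∃ t ∈ Set.Icc (0 : ℝ) T', ∃ u ∈ Set.Icc (0 : ℝ) t',
      I ^ k * γ t = γ' u + s ∨ I ^ k * γ t = γ' u - s := by
  obtain ⟨z, hz, hz'⟩ := single hγ h0 hκ k0 k1 hT hTT hc hρ hfar hlate
  set Y : Set ℂ := {y | y - s ∈ A γ T' ∨ y + s ∈ A γ T'} with hY
  have j1 : JoinedIn Y (0 - s) (z - s) := by
    refine joined_map (fun w => w - s) (by fun_prop) (A_joined hγ h0 hz) fun w hw => Or.inr ?_
    rw [sub_add_cancel]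
    exact hw
  have j2 : JoinedIn Y (0 + s) (z - 2 * s + s) := by
    refine joined_map (fun w => w + s) (by fun_prop) (A_joined hγ h0 hz') fun w hw => Or.inl ?_
    rw [add_sub_cancel_right]
    exact hw
  have e : z - 2 * s + s = z - s := by ring
  rw [e, zero_add] at j2
  rw [zero_sub] at j1
  have j3 : JoinedIn Y (-s) (- -s) := by
    rw [neg_neg]
    exact j1.trans j2.symm
  have hA : ∀ w ∈ A γ T', ‖w‖ ≤ ρ' := by
    rintro w ⟨k, t, ht, rfl⟩
    rw [norm_mul, norm_pow, norm_I, one_pow, one_mul]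
    exact hρ' t ht
  have hYn : ∀ y ∈ Y, ‖y‖ ≤ ρ' + ‖s‖ := by
    rintro y (hy | hy)
    · have h1 := hA _ hy
      have h2 := norm_add_le (y - s) s
      rw [sub_add_cancel] at h2
      linarith
    · have h1 := hA _ hy
      have h2 := norm_sub_le (y + s) s
      rw [add_sub_cancel_right] at h2
      linarith
  have jB := joined_curve hγ' ht'
  rw [h0'] at jB
  obtain ⟨x, hx, ⟨u, hu, e1⟩ | ⟨u, hu, e1⟩⟩ := sepJ j3 hYn jB hfar'
  · rcases hx with hx | hx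
    · obtain ⟨k, t, ht, e2⟩ := hx
      exact ⟨k, t, ht, u, hu, Or.inr (by rw [← e2, e1])⟩
    · obtain ⟨k, t, ht, e2⟩ := hx
      exact ⟨k, t, ht, u, hu, Or.inl (by rw [← e2, e1])⟩
  · rcases hx with hx | hx
    · obtain ⟨k, t, ht, e2⟩ := A_neg hx
      exact ⟨k, t, ht, u, hu, Or.inl (by rw [← e2, e1]; ring)⟩
    · obtain ⟨k, t, ht, e2⟩ := A_neg hx
      exact ⟨k, t, ht, u, hu, Or.inr (by rw [← e2, e1]; ring)⟩

end Pool.Agent.H986.MT
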