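import Pool.Agent.H986.MT.Core

/-!
Interpolated lattice paths: common points give common vertices.
-/

set_option autoImplicit false

namespace Pool.Agent.H986.MT

open Complex

/-- a lattice point in the plane -/
noncomputable def pt (p : ℤ × ℤ) : ℂ := (p.1 : ℂ) + (p.2 : ℂ) * Complex.I

theorem pt_re (p : ℤ × ℤ) : (pt p).re = p.1 := by simp [pt]

theorem pt_im (p : ℤ × ℤ) : (pt p).im = p.2 := by simp [pt]

theorem pt_add (p q : ℤ × ℤ) : pt (p + q) = pt p + pt q := by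
  simp [pt]
  ring

theorem pt_sub (p q : ℤ × ℤ) : pt (p - q) = pt p - pt q := by
  simp [pt]
  ring

/-- quarter turn -/
def rt (p : ℤ × ℤ) : ℤ × ℤ := (-p.2, p.1)

theorem pt_rt (p : ℤ × ℤ) : pt (rt p) = I * pt p := by
  unfold pt rt
  push_cast
  ring_nf
  rw [I_sq]
  ring

theorem pt_rt_iter (k : ℕ) (p : ℤ × ℤ) : pt (rt^[k] p) = I ^ k * pt p := by
  induction k with
  | zero => simp
  | succ k ih =>
    rw [Function.iterate_succ_apply', pt_rt, ih, pow_succ]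
    ring

/-- steps of length at most one -/
def Near (p q : ℤ × ℤ) : Prop := |q.1 - p.1| + |q.2 - p.2| ≤ 1

theorem near_rt {p q : ℤ × ℤ} (h : Near p q) : Near (rt p) (rt q) := by
  unfold Near rt at *
  simp only
  have : -q.2 - -p.2 = -(q.2 - p.2) := by ring
  rw [this, abs_neg]
  linarith

theorem near_rt_iter (k : ℕ) {p q : ℤ × ℤ} (h : Near p q) : Near (rt^[k] p) (rt^[k] q) := by
  induction k with
  | zero => exact h
  | succ k ih =>
    rw [Function.iterate_succ_apply', Function.iterate_succ_apply']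
    exact near_rt ih

theorem near_add {p q : ℤ × ℤ} (h : Near p q) (x : ℤ × ℤ) : Near (p + x) (q + x) := by
  unfold Near at *
  simpa using h

theorem one_dim {D e f : ℤ} {a b : ℝ} (ha : a ∈ Set.Icc (0 : ℝ) 1) (hb : b ∈ Set.Icc (0 : ℝ) 1)
    (h : (D : ℝ) = b * f - a * e) : min 0 f - max 0 e ≤ D ∧ D ≤ max 0 f - min 0 e := by
  have key : ∀ (c : ℝ) (g : ℤ), c ∈ Set.Icc (0 : ℝ) 1 →
      ((min 0 g : ℤ) : ℝ) ≤ c * g ∧ c * g ≤ ((max 0 g : ℤ) : ℝ) := by
    intro c g hc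
    rcases le_total 0 g with hg | hg
    · rw [min_eq_left hg, max_eq_right hg]
      have hg' : (0 : ℝ) ≤ g := by exact_mod_cast hg
      push_cast
      exact ⟨mul_nonneg hc.1 hg', by nlinarith [hc.2]⟩
    · rw [min_eq_right hg, max_eq_left hg]
      have hg' : (g : ℝ) ≤ 0 := by exact_mod_cast hg
      push_cast
      exact ⟨by nlinarith [hc.2], mul_nonpos_of_nonneg_of_nonpos hc.1 hg'⟩
  have h1 := key b f hb
  have h2 := key a e ha
  constructor
  · have : ((min 0 f - max 0 e : ℤ) : ℝ) ≤ D := by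
      rw [h]
      push_cast at *
      linarith [h1.1, h2.2]
    exact_mod_cast this
  · have : (D : ℝ) ≤ ((max 0 f - min 0 e : ℤ) : ℝ) := by
      rw [h]
      push_cast at *
      linarith [h1.2, h2.1]
    exact_mod_cast this

theorem edge {p p' q q' : ℤ × ℤ} (hp : Near p p') (hq : Near q q') {a b : ℝ}
    (ha : a ∈ Set.Icc (0 : ℝ) 1) (hb : b ∈ Set.Icc (0 : ℝ) 1)
    (h : pt p + a * (pt p' - pt p) = pt q + b * (pt q' - pt q)) :
    (p = q ∨ p = q') ∨ (p' = q ∨ p' = q') := by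
  obtain ⟨p1, p2⟩ := p
  obtain ⟨p1', p2'⟩ := p'
  obtain ⟨q1, q2⟩ := q
  obtain ⟨q1', q2'⟩ := q'
  have hr := congrArg Complex.re h
  have hi := congrArg Complex.im h
  simp only [add_re, mul_re, ofReal_re, sub_re, ofReal_im, zero_mul, sub_zero, pt_re, add_im,
    mul_im, sub_im, add_zero, pt_im] at hr hi
  have h1 : ((p1 - q1 : ℤ) : ℝ) = b * ((q1' - q1 : ℤ) : ℝ) - a * ((p1' - p1 : ℤ) : ℝ) := by
    push_cast
    linarith
  have h2 : ((p2 - q2 : ℤ) : ℝ) = b * ((q2' - q2 : ℤ) : ℝ) - a * ((p2' - p2 : ℤ) : ℝ) := by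
    push_cast
    linarith
  have k1 := one_dim ha hb h1
  have k2 := one_dim ha hb h2
  unfold Near at hp hq
  simp only at hp hq
  simp only [Prod.mk.injEq]
  have a1 := abs_le.1 (le_of_add_le_of_nonneg_left hp (abs_nonneg _))
  have a2 := abs_le.1 (le_of_add_le_of_nonneg_right hp (abs_nonneg _))
  have a3 := abs_le.1 (le_of_add_le_of_nonneg_left hq (abs_nonneg _))
  have a4 := abs_le.1 (le_of_add_le_of_nonneg_right hq (abs_nonneg _))
  have b1 : p1' = p1 ∨ p2' = p2 := by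
    by_contra hc
    push Not at hc
    have c1 := Int.one_le_abs (sub_ne_zero.2 hc.1)
    have c2 := Int.one_le_abs (sub_ne_zero.2 hc.2)
    linarith
  have b2 : q1' = q1 ∨ q2' = q2 := by
    by_contra hc
    push Not at hc
    have c1 := Int.one_le_abs (sub_ne_zero.2 hc.1)
    have c2 := Int.one_le_abs (sub_ne_zero.2 hc.2)
    linarith
  clear hp hq h h1 h2 hr hi
  rcases b1 with b1 | b1 <;> rcases b2 with b2 | b2 <;> omega

/-- linear interpolation -/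
noncomputable def lin (n : ℕ) (v : ℕ → ℂ) (t : ℝ) : ℂ :=
  v 0 + ∑ k ∈ Finset.range n, (cl (t - k) : ℂ) * (v (k + 1) - v k)

@[fun_prop]
theorem lin_cont (n : ℕ) (v : ℕ → ℂ) : Continuous (lin n v) := by
  unfold lin
  fun_prop

theorem lin_succ (n : ℕ) (v : ℕ → ℂ) (t : ℝ) :
    lin (n + 1) v t = lin n v t + (cl (t - n) : ℂ) * (v (n + 1) - v n) := by
  unfold lin
  rw [Finset.sum_range_succ]
  ring

theorem lin_ge (n : ℕ) (v : ℕ → ℂ) {t : ℝ} (h : (n : ℝ) ≤ t) : lin n v t = v n := by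
  induction n with
  | zero => simp [lin]
  | succ n ih =>
    push_cast at h
    rw [lin_succ, ih (by linarith), cl_one (by linarith)]
    simp

theorem lin_stable (n d : ℕ) (v : ℕ → ℂ) {t : ℝ} (h : t ≤ n) : lin (n + d) v t = lin n v t := by
  induction d with
  | zero => rfl
  | succ d ih =>
    rw [← add_assoc, lin_succ, ih, cl_zero]
    · simp
    · push_cast
      have : (0 : ℝ) ≤ d := Nat.cast_nonneg d
      linarith

theorem lin_eq {n j : ℕ} (hj : j < n) (v : ℕ → ℂ) {t : ℝ} (h1 : (j : ℝ) ≤ t)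
    (h2 : t ≤ (j : ℝ) + 1) :
    lin n v t = v j + ((t - j : ℝ) : ℂ) * (v (j + 1) - v j) := by
  obtain ⟨d, rfl⟩ := Nat.exists_eq_add_of_lt hj
  have e : j + d + 1 = (j + 1) + d := by ring
  rw [e, lin_stable _ _ _ (by push_cast; exact h2), lin_succ, lin_ge _ _ h1,
    cl_id (by linarith) (by linarith)]

theorem lin_zero (n : ℕ) (v : ℕ → ℂ) : lin n v 0 = v 0 := by
  have h : ∑ k ∈ Finset.range n, (cl (0 - (k : ℝ)) : ℂ) * (v (k + 1) - v k) = 0 := by
    refine Finset.sum_eq_zero fun k _ => ?_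
    rw [cl_zero]
    · simp
    · have : (0 : ℝ) ≤ k := Nat.cast_nonneg k
      linarith
  unfold lin
  rw [h, add_zero]

theorem lin_nat {n j : ℕ} (hj : j ≤ n) (v : ℕ → ℂ) : lin n v j = v j := by
  rcases eq_or_lt_of_le hj with h | h
  · rw [h]
    exact lin_ge n v le_rfl
  · rw [lin_eq h v le_rfl (by linarith)]
    simp

theorem lin_map (n : ℕ) (v : ℕ → ℂ) (a b : ℂ) (t : ℝ) :
    lin n (fun k => a * v k + b) t = a * lin n v t + b := by
  have h : ∀ k : ℕ, (cl (t - (k : ℝ)) : ℂ) * (a * v (k + 1) + b - (a * v k + b)) =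
      a * ((cl (t - (k : ℝ)) : ℂ) * (v (k + 1) - v k)) := by
    intro k
    ring
  unfold lin
  simp only [h, ← Finset.mul_sum]
  ring

/-- the block of a time -/
theorem block {n : ℕ} {t : ℝ} {i₀ : ℕ} (h0 : (i₀ : ℝ) < t) (h1 : t ≤ n) :
    ∃ j, i₀ ≤ j ∧ j < n ∧ (j : ℝ) < t ∧ t ≤ (j : ℝ) + 1 := by
  have ht : 0 < t := lt_of_le_of_lt (Nat.cast_nonneg _) h0
  have hc : 0 < ⌈t⌉₊ := Nat.ceil_pos.2 ht
  refine ⟨⌈t⌉₊ - 1, ?_, ?_, ?_, ?_⟩
  · have : i₀ < ⌈t⌉₊ := Nat.lt_ceil.2 h0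
    omega
  · have : ⌈t⌉₊ ≤ n := Nat.ceil_le.2 h1
    omega
  · have : ⌈t⌉₊ - 1 < ⌈t⌉₊ := by omega
    exact Nat.lt_ceil.1 this
  · have e : ((⌈t⌉₊ - 1 : ℕ) : ℝ) + 1 = (⌈t⌉₊ : ℝ) := by
      have : (⌈t⌉₊ - 1) + 1 = ⌈t⌉₊ := by omega
      exact_mod_cast this
    rw [e]
    exact Nat.le_ceil t

/-- Interpolated lattice paths with a common point have a common vertex. -/
theorem meet {n m : ℕ} {v w : ℕ → ℤ × ℤ} (hv : ∀ k < n, Near (v k) (v (k + 1)))
    (hw : ∀ k < m, Near (w k) (w (k + 1))) {t u : ℝ} {i₀ : ℕ} (h0 : (i₀ : ℝ) < t) (h1 : t ≤ n)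
    (h2 : 0 ≤ u) (h3 : u ≤ m) (h : lin n (fun k => pt (v k)) t = lin m (fun k => pt (w k)) u) :
    ∃ i, i₀ ≤ i ∧ i ≤ n ∧ (i : ℝ) < t + 1 ∧ ∃ j ≤ m, (j : ℝ) < u + 1 ∧ v i = w j := by
  obtain ⟨j, a1, a2, a3, a4⟩ := block h0 h1
  have a5 : ((j + 1 : ℕ) : ℝ) < t + 1 := by
    push_cast
    linarith
  have hlt : ((j : ℕ) : ℝ) < t + 1 := by linarith
  rw [lin_eq a2 _ a3.le a4] at h
  -- the second path
  have key : ∃ l l' : ℕ, l ≤ m ∧ l' ≤ m ∧ (l : ℝ) < u + 1 ∧ (l' : ℝ) < u + 1 ∧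
      Near (w l) (w l') ∧ ∃ b ∈ Set.Icc (0 : ℝ) 1,
      lin m (fun k => pt (w k)) u = pt (w l) + b * (pt (w l') - pt (w l)) := by
    rcases eq_or_lt_of_le h2 with h4 | h4
    · refine ⟨0, 0, Nat.zero_le _, Nat.zero_le _, by push_cast; linarith, by push_cast; linarith,
        by simp [Near], 0, by simp, ?_⟩
      rw [← h4, lin_zero]
      simp
    · obtain ⟨l, b1, b2, b3, b4⟩ := block (i₀ := 0) (by simpa using h4) h3
      refine ⟨l, l + 1, b2.le, b2, by linarith, by push_cast; linarith, hw l b2, u - l,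
        ⟨by linarith, by linarith⟩, ?_⟩
      rw [lin_eq b2 _ b3.le b4]
  obtain ⟨l, l', hl, hl', hlu, hlu', hn, b, hb, e⟩ := key
  rw [e] at h
  rcases edge (hv j a2) hn (a := t - j) ⟨by linarith, by linarith⟩ hb h with h5 | h5
  · rcases h5 with h5 | h5
    · exact ⟨j, a1, a2.le, hlt, l, hl, hlu, h5⟩
    · exact ⟨j, a1, a2.le, hlt, l', hl', hlu', h5⟩
  · rcases h5 with h5 | h5
    · exact ⟨j + 1, by omega, a2, a5, l, hl, hlu, h5⟩
    · exact ⟨j + 1, by omega, a2, a5, l', hl', hlu', h5⟩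

end Pool.Agent.H986.MT
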