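import Pool.Graph.R_seed8.Helper133.BULib

/-!
A path from `z` to `-z` together with its negative separates `0` from infinity.
-/

set_option autoImplicit false

namespace Pool.Agent.H986.MT

open Pool.Agent.Helper133.BU

/-- clamping to `[0, 1]` -/
noncomputable def cl (x : ℝ) : ℝ := max 0 (min 1 x)

theorem cl_mem (x : ℝ) : cl x ∈ Set.Icc (0 : ℝ) 1 :=
  ⟨le_max_left _ _, max_le (by norm_num) (min_le_left _ _)⟩

theorem cl_one {x : ℝ} (h : 1 ≤ x) : cl x = 1 := by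
  unfold cl
  rw [min_eq_left h]
  norm_num

theorem cl_zero {x : ℝ} (h : x ≤ 0) : cl x = 0 := by
  unfold cl
  rw [min_eq_right (by linarith), max_eq_left h]

theorem cl_id {x : ℝ} (h : 0 ≤ x) (h' : x ≤ 1) : cl x = x := by
  unfold cl
  rw [min_eq_right h', max_eq_right h]

theorem cl_refl (x : ℝ) : cl (1 / 2 - x) = 1 - cl (1 / 2 + x) := by
  rcases le_total (1 / 2 + x) 0 with h | h
  · rw [cl_zero h, cl_one (by linarith)]
    norm_num
  rcases le_total 1 (1 / 2 + x) with h' | h'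
  · rw [cl_one h', cl_zero (by linarith)]
    norm_num
  · rw [cl_id h h', cl_id (by linarith) (by linarith)]
    ring

@[fun_prop]
theorem cl_cont : Continuous cl := by
  unfold cl
  fun_prop

/-- the odd map of the plane -/
noncomputable def PP (π : ℝ → ℂ) (a b : ℝ) : ℂ :=
  (cl (1 / 2 + 2 * b) : ℂ) * π (cl (1 / 2 - 2 * a)) -
    (1 - cl (1 / 2 + 2 * b) : ℂ) * π (cl (1 / 2 + 2 * a))

theorem PP_odd (π : ℝ → ℂ) (a b : ℝ) : PP π (-a) (-b) = -PP π a b := by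
  unfold PP
  have e : cl (1 / 2 + 2 * -b) = 1 - cl (1 / 2 + 2 * b) := by
    rw [← cl_refl]
    congr 1
    ring
  rw [e]
  have e1 : (1 / 2 - 2 * -a : ℝ) = 1 / 2 + 2 * a := by ring
  have e2 : (1 / 2 + 2 * -a : ℝ) = 1 / 2 - 2 * a := by ring
  rw [e1, e2]
  push_cast
  ring

theorem PP_le {π : ℝ → ℂ} {M : ℝ} (hM : ∀ u ∈ Set.Icc (0 : ℝ) 1, ‖π u‖ ≤ M) (a b : ℝ) :
    ‖PP π a b‖ ≤ M := by
  unfold PP
  have h := cl_mem (1 / 2 + 2 * b)
  have h1 := hM _ (cl_mem (1 / 2 - 2 * a))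
  have h2 := hM _ (cl_mem (1 / 2 + 2 * a))
  refine (norm_sub_le _ _).trans ?_
  rw [norm_mul, norm_mul]
  have e1 : ‖(cl (1 / 2 + 2 * b) : ℂ)‖ = cl (1 / 2 + 2 * b) := by
    rw [Complex.norm_real, Real.norm_of_nonneg h.1]
  have e2 : ‖(1 - cl (1 / 2 + 2 * b) : ℂ)‖ = 1 - cl (1 / 2 + 2 * b) := by
    rw [← Complex.ofReal_one, ← Complex.ofReal_sub, Complex.norm_real,
      Real.norm_of_nonneg (by linarith [h.2])]
  rw [e1, e2]
  nlinarith [h.1, h.2]

theorem PP_eq {π : ℝ → ℂ} (h1 : π 1 = -π 0) {a b : ℝ} (h : 1 / 2 ≤ |a| + |b|) :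
    ∃ u ∈ Set.Icc (0 : ℝ) 1, PP π a b = π u ∨ PP π a b = -π u := by
  unfold PP
  rcases le_total (1 / 4) b with hb | hb
  · refine ⟨cl (1 / 2 - 2 * a), cl_mem _, Or.inl ?_⟩
    rw [cl_one (x := 1 / 2 + 2 * b) (by linarith)]
    simp
  rcases le_total b (-(1 / 4)) with hb' | hb'
  · refine ⟨cl (1 / 2 + 2 * a), cl_mem _, Or.inr ?_⟩
    rw [cl_zero (x := 1 / 2 + 2 * b) (by linarith)]
    simp
  have hb2 : |b| ≤ 1 / 4 := abs_le.2 ⟨by linarith, hb⟩
  have ha : 1 / 4 ≤ |a| := by linarith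
  rcases le_abs.1 ha with ha' | ha'
  · refine ⟨0, by simp, Or.inl ?_⟩
    rw [cl_zero (x := 1 / 2 - 2 * a) (by linarith), cl_one (x := 1 / 2 + 2 * a) (by linarith), h1]
    ring
  · refine ⟨0, by simp, Or.inr ?_⟩
    rw [cl_one (x := 1 / 2 - 2 * a) (by linarith), cl_zero (x := 1 / 2 + 2 * a) (by linarith), h1]
    ring

/-- A path from `z` to `-z` or its negative meets each path from `0` to a point farther from
`0`. -/
theorem sep (π σ : ℝ → ℂ) (hπ : Continuous π) (hσ : Continuous σ) (M : ℝ) (h1 : π 1 = -π 0)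
    (hM : ∀ u ∈ Set.Icc (0 : ℝ) 1, ‖π u‖ ≤ M) (h0 : σ 0 = 0) (hM1 : M < ‖σ 1‖) :
    ∃ u ∈ Set.Icc (0 : ℝ) 1, ∃ t ∈ Set.Icc (0 : ℝ) 1, σ t = π u ∨ σ t = -π u := by
  classical
  let g : (Fin 3 → ℝ) → ℂ := fun p => PP π (p 0) (p 1) - σ (cl (2 * p 2)) + σ (cl (-(2 * p 2)))
  have hg : Continuous g := by
    simp only [g, PP]
    fun_prop
  have hgo : ∀ p, g (-p) = -g p := by
    intro p
    simp only [g, Pi.neg_apply]
    rw [PP_odd]
    have e : 2 * -p 2 = -(2 * p 2) := by ring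
    rw [e, neg_neg]
    ring
  let f : (Fin 3 → ℝ) → (Fin 2 → ℝ) := fun p => ![(g p).re, (g p).im]
  have hf : Continuous f := by
    refine continuous_pi fun i => ?_
    fin_cases i
    · exact Complex.continuous_re.comp hg
    · exact Complex.continuous_im.comp hg
  have hodd : ∀ p, f (-p) = -f p := by
    intro p
    funext i
    fin_cases i
    · change (g (-p)).re = -(g p).re
      rw [hgo, Complex.neg_re]
    · change (g (-p)).im = -(g p).im
      rw [hgo, Complex.neg_im]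
  obtain ⟨x, hx, hfx⟩ := borsuk_ulam 2 f hf hodd
  have hgx : g x = 0 := by
    apply Complex.ext
    · exact congrFun hfx 0
    · exact congrFun hfx 1
  obtain ⟨p, hp, hgp, hp2⟩ : ∃ p : Fin 3 → ℝ, |p 0| + |p 1| + |p 2| = 1 ∧ g p = 0 ∧ 0 ≤ p 2 := by
    have hs : |x 0| + |x 1| + |x 2| = 1 := by
      have : ∑ i, |x i| = 1 := hx
      rw [Fin.sum_univ_three] at this
      exact this
    rcases le_total 0 (x 2) with h | h
    · exact ⟨x, hs, hgx, h⟩
    · refine ⟨-x, by simpa using hs, by rw [hgo, hgx, neg_zero], by simpa using h⟩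
  have e : PP π (p 0) (p 1) = σ (cl (2 * p 2)) := by
    have h2 : PP π (p 0) (p 1) - σ (cl (2 * p 2)) + σ (cl (-(2 * p 2))) = 0 := hgp
    rw [cl_zero (x := -(2 * p 2)) (by linarith), h0, add_zero] at h2
    exact sub_eq_zero.1 h2
  rcases le_total (1 / 2) (p 2) with h | h
  · exfalso
    rw [cl_one (x := 2 * p 2) (by linarith)] at e
    have := PP_le hM (p 0) (p 1)
    rw [e] at this
    linarith
  · rw [abs_of_nonneg hp2] at hp
    obtain ⟨u, hu, hu'⟩ := PP_eq h1 (a := p 0) (b := p 1) (by linarith)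
    refine ⟨u, hu, cl (2 * p 2), cl_mem _, ?_⟩
    rw [← e]
    exact hu'

theorem sepJ {F B : Set ℂ} {z w : ℂ} {M : ℝ} (h : JoinedIn F z (-z)) (hF : ∀ x ∈ F, ‖x‖ ≤ M)
    (hB : JoinedIn B 0 w) (hw : M < ‖w‖) : ∃ x ∈ F, x ∈ B ∨ -x ∈ B := by
  obtain ⟨γ, hγ⟩ := h
  obtain ⟨δ, hδ⟩ := hB
  have e1 : ∀ u ∈ Set.Icc (0 : ℝ) 1, γ.extend u ∈ F := by
    intro u hu
    rw [Path.extend_apply γ hu]
    exact hγ _
  have e2 : ∀ u ∈ Set.Icc (0 : ℝ) 1, δ.extend u ∈ B := by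
    intro u hu
    rw [Path.extend_apply δ hu]
    exact hδ _
  obtain ⟨u, hu, t, ht, h1 | h1⟩ := sep γ.extend δ.extend γ.continuous_extend δ.continuous_extend M
    (by rw [Path.extend_one, Path.extend_zero]) (fun u hu => hF _ (e1 u hu))
    (by rw [Path.extend_zero]) (by rw [Path.extend_one]; exact hw)
  · exact ⟨_, e1 u hu, Or.inl (h1 ▸ e2 t ht)⟩
  · refine ⟨_, e1 u hu, Or.inr ?_⟩
    rw [← h1]
    exact e2 t ht

end Pool.Agent.H986.MT
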